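import Pool.Agent.N155.L.SDefs

/-!
Symmetric differentials multiplied by functions, differential fields over a function field, and
twisted regular symmetric differentials on finite covers.
-/

set_option autoImplicit false

open FF Pool.Agent.W602.GT Pool.Agent.N155

namespace Pool.Agent.L0h17.SD

variable {M : Type} [Field M] [Algebra ℂ M]

/-- The product `c * θ` of a rational function and a symmetric differential. -/
def smulSym (c : M) (θ : SymD M) : SymD M := ⟨θ.d, θ.r, fun j => c * θ.h j, θ.f⟩

/-- The symmetric differential `θ` of positive degree `m` is twisted regular for the family `a` of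
rational functions: all the products `a i ^ (2 * m) * θ` are regular on the smooth projective models
of `M`. (For the line bundle `L` generated by the `a i` outside codimension two, `θ` is a regular
section of `S^m Ω ⊗ L^(-2m)`.) -/
def TwistedRegular {κ : Type} (a : κ → M) (θ : SymD M) : Prop :=
  0 < θ.d ∧ ∀ i, (smulSym (a i ^ (2 * θ.d)) θ).Regular 2

/-- The derivation `δ` of the field `N`, an extension of `ℂ`, has only complex numbers as
constants. -/
def ComplexConstants {N : Type} [Field N] [Algebra ℂ N] (δ : Derivation ℂ N N) : Prop :=
  ∀ x, δ x = 0 → ∃ c : ℂ, x = algebraMap ℂ N c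

/-- The twisted regular symmetric differentials (for the family `a`) have no common zero on the
extensions of `M` with a derivation whose constants are the complex numbers: for example on the
field of meromorphic functions on `ℂ`, if `M` is embedded in it by an entire curve which is not
contained in an algebraic curve. -/
def NoCommonZero {κ : Type} (a : κ → M) : Prop :=
  ∀ (N : Type) [Field N] [Algebra ℂ N] [Algebra M N] [IsScalarTower ℂ M N]
    (δ : Derivation ℂ N N), ComplexConstants δ →
    ∃ θ : SymD M, TwistedRegular a θ ∧ θ.app (δ.compAlgebraMap M) ≠ 0

variable {K : Type} [Field K] [Algebra ℂ K] [Algebra K M]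

/-- The derivation `D'` of `M` extends the derivation `D` of `K`. -/
def Lifts (D : Derivation ℂ K K) (D' : Derivation ℂ M M) : Prop :=
  ∀ x, D' (algebraMap K M x) = algebraMap K M (D x)

/-- The symmetric differential `σ` of `K` becomes over the extension `M` the product
`h * df 1 ⋯ df d` of a rational function and exact differentials. -/
def SplitsAs (σ : SymD K) (h : M) {d : ℕ} (f : Fin d → M) : Prop :=
  ∀ (N : Type) [Field N] [Algebra ℂ N] [Algebra M N] [Algebra K N] [IsScalarTower ℂ M N]
    [IsScalarTower K M N] (D : Derivation ℂ M N) (D₀ : Derivation ℂ K N),
    (∀ x, D (algebraMap K M x) = D₀ x) → σ.app D₀ = algebraMap M N h * ∏ l, D (f l)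

end Pool.Agent.L0h17.SD
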