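import Pool.Agent.L0h17.SD.Nrm
import Mathlib.RingTheory.Artinian.Module
import Mathlib.RingTheory.Jacobson.Ideal

/-!
Choice of a symmetric differential on a finite cover whose norm does not vanish on a derivation.
-/

set_option autoImplicit false
set_option linter.overlappingInstances false
set_option linter.unusedSectionVars false

open FF Pool.Agent.W602.GT Pool.Agent.N155 MvPolynomial
open scoped TensorProduct

namespace Pool.Agent.L0h17.SD

section

variable {K M : Type} [Field K] [Field M] [Algebra ℂ K] [Algebra ℂ M] [Algebra K M]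
  [IsScalarTower ℂ K M] [FiniteDimensional K M]

/-- a differential field is the quotient of the tensor product by a maximal ideal -/
theorem exists_diff {L : Type} [Field L] [Algebra ℂ L] [Algebra K L] [IsScalarTower ℂ K L]
    (δ : Derivation ℂ L L) (hδ : ∀ l, δ l = 0 → ∃ c : ℂ, l = algebraMap ℂ L c)
    (𝔪 : Ideal (L ⊗[K] M)) (hm : 𝔪.IsMaximal) :
    ∃ (N : Type) (_ : Field N) (_ : Algebra ℂ N) (_ : Algebra M N) (_ : IsScalarTower ℂ M N)
      (δ' : Derivation ℂ N N) (π : L ⊗[K] M →+* N),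
      (∀ x, δ' x = 0 → ∃ c : ℂ, x = algebraMap ℂ N c) ∧ RingHom.ker π = 𝔪 ∧
      (∀ l, δ' (π (l ⊗ₜ 1)) = π (δ l ⊗ₜ 1)) ∧ (∀ m, π (1 ⊗ₜ m) = algebraMap M N m) ∧
      ∀ Φ : MvPolynomial M M, π (XD (δ.compAlgebraMap K) Φ) = evD (δ'.compAlgebraMap M) Φ := by
  obtain ⟨N, iF, π, hsurj, hker⟩ : ∃ (N : Type) (_ : Field N) (π : L ⊗[K] M →+* N),
      Function.Surjective π ∧ RingHom.ker π = 𝔪 :=
    ⟨(L ⊗[K] M) ⧸ 𝔪, Ideal.Quotient.field 𝔪, Ideal.Quotient.mk 𝔪, Ideal.Quotient.mk_surjective,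
      Ideal.mk_ker⟩
  let iL : Algebra L N := (π.comp (algebraMap L (L ⊗[K] M))).toAlgebra
  let iM : Algebra M N := (π.comp
    (Algebra.TensorProduct.includeRight : M →ₐ[K] L ⊗[K] M).toRingHom).toAlgebra
  let iC : Algebra ℂ N := ((algebraMap L N).comp (algebraMap ℂ L)).toAlgebra
  let iK : Algebra K N := ((algebraMap L N).comp (algebraMap K L)).toAlgebra
  have hL : ∀ l : L, algebraMap L N l = π (l ⊗ₜ 1) := fun l => rfl
  have hM : ∀ m : M, algebraMap M N m = π (1 ⊗ₜ m) := fun m => rfl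
  have t1 : IsScalarTower ℂ L N := IsScalarTower.of_algebraMap_eq fun c => rfl
  have t2 : IsScalarTower K L N := IsScalarTower.of_algebraMap_eq fun c => rfl
  have t3 : IsScalarTower K M N := IsScalarTower.of_algebraMap_eq fun c => by
    change algebraMap L N (algebraMap K L c) = _
    rw [hL, hM]
    congr 1
    rw [Algebra.algebraMap_eq_smul_one, Algebra.algebraMap_eq_smul_one,
      TensorProduct.smul_tmul]
  have t4 : IsScalarTower ℂ M N := IsScalarTower.of_algebraMap_eq fun c => by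
    rw [IsScalarTower.algebraMap_apply ℂ K M, ← IsScalarTower.algebraMap_apply K M N]
    change algebraMap L N (algebraMap ℂ L c) = algebraMap L N (algebraMap K L (algebraMap ℂ K c))
    rw [← IsScalarTower.algebraMap_apply ℂ K L]
  have t5 : IsScalarTower ℂ K N := IsScalarTower.of_algebraMap_eq fun c => by
    change algebraMap L N (algebraMap ℂ L c) = algebraMap L N (algebraMap K L (algebraMap ℂ K c))
    rw [← IsScalarTower.algebraMap_apply ℂ K L]
  have hfin : Module.Finite L N := by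
    have h1 : Module.Finite L (L ⊗[K] M) := inferInstance
    let g : (L ⊗[K] M) →ₗ[L] N :=
      { toFun := π
        map_add' := π.map_add
        map_smul' := fun l x => by
          rw [Algebra.smul_def, map_mul, RingHom.id_apply, Algebra.smul_def]
          rfl }
    exact Module.Finite.of_surjective g hsurj
  have : CharZero L := charZero_of_injective_algebraMap (algebraMap ℂ L).injective
  have halg : Algebra.IsAlgebraic L N := Algebra.IsAlgebraic.of_finite L N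
  have hsep : Algebra.IsSeparable L N := Algebra.IsAlgebraic.isSeparable_of_perfectField
  obtain ⟨δ', hδ'⟩ := Pool.Agent.Y190.BV.exists_ext (k := ℂ) (K := L) (L := N) δ
  refine ⟨N, iF, iC, iM, t4, δ', π, const_ext hδ' hδ, hker, fun l => hδ' l,
    fun m => rfl, fun Φ => ?_⟩
  refine proj_xd (δ.compAlgebraMap K) (δ'.compAlgebraMap M) π (fun m => rfl) (fun x => ?_) Φ
  change δ' (algebraMap M N (algebraMap K M x)) = π (δ (algebraMap K L x) ⊗ₜ 1)
  rw [← IsScalarTower.algebraMap_apply K M N, IsScalarTower.algebraMap_apply K L N, hδ', hL]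

end

section

/-- avoiding finitely many polynomials -/
theorem exists_avoid {κ : Type} [Finite κ] {N : κ → Type} [∀ i, Field (N i)]
    [∀ i, Algebra ℂ (N i)] (p : ∀ i, Polynomial (N i)) (hp : ∀ i, p i ≠ 0) :
    ∃ s : ℂ, ∀ i, (p i).eval (algebraMap ℂ (N i) s) ≠ 0 := by
  by_contra hcon
  push Not at hcon
  have h1 : (Set.univ : Set ℂ) ⊆ ⋃ i, {s | (p i).eval (algebraMap ℂ (N i) s) = 0} := by
    intro s _
    obtain ⟨i, hi⟩ := hcon s
    exact Set.mem_iUnion.2 ⟨i, hi⟩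
  have h2 : (⋃ i, {s : ℂ | (p i).eval (algebraMap ℂ (N i) s) = 0}).Finite := by
    refine Set.finite_iUnion fun i => ?_
    have h3 : {s : ℂ | (p i).eval (algebraMap ℂ (N i) s) = 0} ⊆
        (algebraMap ℂ (N i)) ⁻¹' {x | (p i).IsRoot x} := fun s hs => hs
    refine Set.Finite.subset (Set.Finite.preimage ?_ (Polynomial.finite_setOf_isRoot (hp i))) h3
    exact (algebraMap ℂ (N i)).injective.injOn
  exact Set.infinite_univ (h2.subset h1)

variable {K M : Type} [Field K] [Field M] [Algebra ℂ K] [Algebra ℂ M] [Algebra K M]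
  [IsScalarTower ℂ K M] [FiniteDimensional K M]

/-- the polynomial in the differentials is regular, after multiplication by the functions `a` -/
def Tw {κ : Type} (a : κ → M) (T : ℕ) (Φ : MvPolynomial M M) : Prop :=
  Φ.IsHomogeneous T ∧ ∀ i, ∀ w : Place ℂ M, Divisorial 2 w → ∀ D : Derivation ℂ M M, DerReg w D →
    w.Reg (a i ^ (2 * T) * evD D Φ)

theorem Tw.pow {κ : Type} {a : κ → M} {T : ℕ} {Φ : MvPolynomial M M} (h : Tw a T Φ) (r : ℕ) :
    Tw a (T * r) (Φ ^ r) := by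
  refine ⟨h.1.pow r, fun i w hw D hD => ?_⟩
  have h1 := h.2 i w hw D hD
  have h2 : a i ^ (2 * (T * r)) * evD D (Φ ^ r) = (a i ^ (2 * T) * evD D Φ) ^ r := by
    rw [map_pow, mul_pow, ← pow_mul]
    congr 2
    ring
  rw [h2]
  exact w.O.pow_mem h1 r

theorem Tw.sum {κ : Type} {a : κ → M} {T : ℕ} {τ : Type} (s : Finset τ) (c : τ → ℂ)
    {Φ : τ → MvPolynomial M M} (h : ∀ i ∈ s, Tw a T (Φ i)) :
    Tw a T (∑ i ∈ s, C (algebraMap ℂ M (c i)) * Φ i) := by
  refine ⟨IsHomogeneous.sum _ _ _ fun i hi => (h i hi).1.C_mul _, fun i w hw D hD => ?_⟩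
  have h2 : a i ^ (2 * T) * evD D (∑ j ∈ s, C (algebraMap ℂ M (c j)) * Φ j) =
      ∑ j ∈ s, algebraMap ℂ M (c j) * (a i ^ (2 * T) * evD D (Φ j)) := by
    rw [map_sum, Finset.mul_sum]
    refine Finset.sum_congr rfl fun j _ => ?_
    rw [map_mul, evD_C]
    change _ * (algebraMap ℂ M (c j) * _) = _
    ring
  rw [h2]
  refine w.O.sum_mem fun j hj => ?_
  refine w.O.mul_mem _ _ ?_ ((h j hj).2 i w hw D hD)
  exact w.reg_const (c j)

/-- **The choice.** -/
theorem exists_unit {κ : Type} (a : κ → M)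
    (h : ∀ (N : Type) [Field N] [Algebra ℂ N] [Algebra M N] [IsScalarTower ℂ M N]
      (δ : Derivation ℂ N N), (∀ l, δ l = 0 → ∃ c : ℂ, l = algebraMap ℂ N c) →
      ∃ (T : ℕ) (Φ : MvPolynomial M M), 0 < T ∧ Tw a T Φ ∧ evD (δ.compAlgebraMap M) Φ ≠ 0)
    {L : Type} [Field L] [Algebra ℂ L] [Algebra K L] [IsScalarTower ℂ K L]
    (δ : Derivation ℂ L L) (hδ : ∀ l, δ l = 0 → ∃ c : ℂ, l = algebraMap ℂ L c) :
    ∃ (T : ℕ) (Φ : MvPolynomial M M), 0 < T ∧ Tw a T Φ ∧ IsUnit (XD (δ.compAlgebraMap K) Φ) := by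
  classical
  have hart : IsArtinianRing (L ⊗[K] M) := by
    have h1 : Module.Finite L (L ⊗[K] M) := inferInstance
    exact IsArtinianRing.of_finite L (L ⊗[K] M)
  have hfin : Finite (MaximalSpectrum (L ⊗[K] M)) := inferInstance
  have _ : Fintype (MaximalSpectrum (L ⊗[K] M)) := Fintype.ofFinite _
  choose N i1 i2 i3 i4 δ' π hc hker hcc hcm hπ using fun 𝔪 : MaximalSpectrum (L ⊗[K] M) =>
    exists_diff (K := K) (M := M) δ hδ 𝔪.asIdeal 𝔪.isMaximal
  choose T Φ hT hΦ hne using fun 𝔪 : MaximalSpectrum (L ⊗[K] M) => h (N 𝔪) (δ' 𝔪) (hc 𝔪)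
  obtain ⟨Tt, hTt⟩ : ∃ Tt, Tt = ∏ 𝔪, T 𝔪 := ⟨_, rfl⟩
  have hTpos : 0 < Tt := hTt ▸ Finset.prod_pos fun 𝔪 _ => hT 𝔪
  have hdvd : ∀ 𝔪, T 𝔪 * (Tt / T 𝔪) = Tt := fun 𝔪 =>
    Nat.mul_div_cancel' (hTt ▸ Finset.dvd_prod_of_mem _ (Finset.mem_univ 𝔪))
  have hΨ : ∀ 𝔪, Tw a Tt (Φ 𝔪 ^ (Tt / T 𝔪)) := fun 𝔪 => by
    have := (hΦ 𝔪).pow (Tt / T 𝔪)
    rwa [hdvd] at this
  let e := Fintype.equivFin (MaximalSpectrum (L ⊗[K] M))
  let p : ∀ 𝔪, Polynomial (N 𝔪) := fun 𝔪 => ∑ j,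
    Polynomial.monomial (e j : ℕ) (evD ((δ' 𝔪).compAlgebraMap M) (Φ j ^ (Tt / T j)))
  obtain ⟨s, hs⟩ := exists_avoid p fun 𝔪 h0 => by
    have h1 : (p 𝔪).coeff (e 𝔪 : ℕ) =
        evD ((δ' 𝔪).compAlgebraMap M) (Φ 𝔪 ^ (Tt / T 𝔪)) := by
      change (∑ j, Polynomial.monomial (e j : ℕ)
        (evD ((δ' 𝔪).compAlgebraMap M) (Φ j ^ (Tt / T j)))).coeff (e 𝔪 : ℕ) = _
      rw [Polynomial.finset_sum_coeff, Finset.sum_eq_single 𝔪]
      · rw [Polynomial.coeff_monomial, if_pos rfl]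
      · intro j _ hj
        rw [Polynomial.coeff_monomial, if_neg]
        intro h2
        exact hj (e.injective (Fin.ext h2))
      · intro h2
        exact absurd (Finset.mem_univ _) h2
    rw [h0, Polynomial.coeff_zero, map_pow] at h1
    exact pow_ne_zero _ (hne 𝔪) h1.symm
  refine ⟨Tt, ∑ j, C (algebraMap ℂ M (s ^ (e j : ℕ))) * Φ j ^ (Tt / T j), hTpos,
    Tw.sum _ _ fun j _ => hΨ j, ?_⟩
  by_contra hunit
  obtain ⟨𝔪, hm, hmem⟩ := exists_max_ideal_of_mem_nonunits hunit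
  have h1 : π ⟨𝔪, hm⟩ (XD (δ.compAlgebraMap K)
      (∑ j, C (algebraMap ℂ M (s ^ (e j : ℕ))) * Φ j ^ (Tt / T j))) = 0 := by
    rw [← RingHom.mem_ker, hker]
    exact hmem
  rw [hπ] at h1
  apply hs ⟨𝔪, hm⟩
  rw [← h1, map_sum]
  change Polynomial.eval _ (∑ j, Polynomial.monomial (e j : ℕ)
        (evD ((δ' ⟨𝔪, hm⟩).compAlgebraMap M) (Φ j ^ (Tt / T j)))) = _
  rw [Polynomial.eval_finset_sum]
  refine Finset.sum_congr rfl fun j _ => ?_
  rw [Polynomial.eval_monomial, map_mul, evD_C, ← IsScalarTower.algebraMap_apply ℂ M,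
    map_pow (algebraMap ℂ (N ⟨𝔪, hm⟩)), mul_comm]

end

end Pool.Agent.L0h17.SD
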