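import Pool.Agent.N155.L.SFin
import Pool.Agent.Y190.BV.Trn

/-!
Derivations in algebraic extensions, and the criterion for hyperbolicity with differential fields.
-/

set_option autoImplicit false
set_option linter.overlappingInstances false
set_option linter.unusedSectionVars false

open Filter Topology Metric Set LinearAlgebra.Projectivization Polynomial
open FF Pool.Agent.Y190.OP Pool.Agent.W602.GT Pool.Agent.TH143.GT Pool.Agent.N155

namespace Pool.Agent.L0h17.SD

section

variable {k K M N : Type} [Field k] [Field K] [Field M] [Field N] [Algebra k K] [Algebra k M]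
  [Algebra k N] [Algebra K M] [Algebra K N] [Algebra M N] [IsScalarTower k K M]
  [IsScalarTower k K N] [IsScalarTower k M N] [IsScalarTower K M N]

/-- derivatives of values of polynomials -/
theorem der_aeval {D : Derivation k K N} {E : Derivation k M N}
    (h : ∀ x : K, E (algebraMap K M x) = D x) (f : M) (G : K[X]) :
    E (aeval f G) = (G.sum fun l c => D c * algebraMap M N f ^ l) +
      algebraMap M N (aeval f (derivative G)) * E f := by
  induction G using Polynomial.induction_on' with
  | add p q hp hq =>
    rw [map_add, map_add, hp, hq, Polynomial.sum_add_index _ _ _ (fun i => by rw [map_zero, zero_mul])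
      (fun i a b => by rw [map_add, add_mul]), derivative_add, map_add, map_add]
    ring
  | monomial l c =>
    rw [Polynomial.sum_monomial_index _ _ (by rw [map_zero, zero_mul]), derivative_monomial,
      aeval_monomial, aeval_monomial, E.leibniz, E.leibniz_pow, h]
    simp only [Algebra.smul_def, map_mul, map_pow, map_natCast, eq_natCast]
    rw [← IsScalarTower.algebraMap_apply K M N]
    ring

end

section

variable {k L N : Type} [Field k] [Field L] [Field N] [Algebra k L] [Algebra k N] [Algebra L N]
  [IsScalarTower k L N]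

/-- the polynomial of the derivatives of the coefficients -/
noncomputable def pder (δ : Derivation k L L) (G : L[X]) : L[X] :=
  ∑ l ∈ Finset.range G.natDegree, Polynomial.monomial l (δ (G.coeff l))

/-- the constants of an algebraic extension -/
theorem const_ext [CharZero L] [IsAlgClosed k] [Algebra.IsAlgebraic L N] {δ : Derivation k L L}
    {δ' : Derivation k N N} (h : ∀ x, δ' (algebraMap L N x) = algebraMap L N (δ x))
    (hc : ∀ x, δ x = 0 → ∃ c : k, x = algebraMap k L c) (x : N) (hx : δ' x = 0) :
    ∃ c : k, x = algebraMap k N c := by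
  have hint : IsIntegral L x := (Algebra.IsAlgebraic.isAlgebraic x).isIntegral
  obtain ⟨G, hG⟩ : ∃ G, G = minpoly L x := ⟨_, rfl⟩
  have hmon : G.Monic := hG ▸ minpoly.monic hint
  have h0 : aeval x G = 0 := hG ▸ minpoly.aeval L x
  have h1 := der_aeval (K := L) (M := N) (N := N) (D := (Algebra.linearMap L N).compDer δ)
    (E := δ') (fun y => h y) x G
  rw [h0, map_zero, hx, mul_zero, add_zero] at h1
  have h2 : aeval x (pder δ G) = 0 := by
    unfold pder
    rw [map_sum]
    rw [Polynomial.sum_over_range _ (fun i => by rw [map_zero, zero_mul]),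
      Finset.sum_range_succ, hmon.coeff_natDegree] at h1
    have h3 : ((Algebra.linearMap L N).compDer δ) (1 : L) = 0 := by
      change algebraMap L N (δ 1) = 0
      rw [Derivation.map_one_eq_zero, map_zero]
    rw [h3, zero_mul, add_zero] at h1
    rw [h1]
    refine Finset.sum_congr rfl fun l _ => ?_
    rw [aeval_monomial]
    rfl
  have h3 : pder δ G = 0 := by
    by_contra hne
    have h4 := minpoly.degree_le_of_ne_zero L x hne h2
    rw [← hG] at h4
    have h5 : (pder δ G).degree < G.degree := by
      rw [Polynomial.degree_eq_natDegree hmon.ne_zero]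
      unfold pder
      refine lt_of_le_of_lt (Polynomial.degree_sum_le _ _) ?_
      rw [Finset.sup_lt_iff (WithBot.bot_lt_coe _)]
      intro l hl
      exact lt_of_le_of_lt (Polynomial.degree_monomial_le _ _)
        (by exact_mod_cast Finset.mem_range.1 hl)
    exact absurd h4 (not_le.2 h5)
  have h4 : ∀ l, ∃ c : k, G.coeff l = algebraMap k L c := by
    intro l
    rcases lt_trichotomy l G.natDegree with hl | hl | hl
    · apply hc
      have h5 : (pder δ G).coeff l = δ (G.coeff l) := by
        unfold pder
        rw [Polynomial.finset_sum_coeff, Finset.sum_eq_single l]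
        · rw [Polynomial.coeff_monomial, if_pos rfl]
        · intro b _ hb
          rw [Polynomial.coeff_monomial, if_neg hb]
        · intro hn
          exact absurd (Finset.mem_range.2 hl) hn
      rw [← h5, h3, Polynomial.coeff_zero]
    · refine ⟨1, ?_⟩
      rw [hl, hmon.coeff_natDegree, map_one]
    · refine ⟨0, ?_⟩
      rw [Polynomial.coeff_eq_zero_of_natDegree_lt hl, map_zero]
  choose c hc' using h4
  obtain ⟨g, hg⟩ : ∃ g : k[X], g.map (algebraMap k L) = G := by
    have : G ∈ Polynomial.lifts (algebraMap k L) := by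
      rw [Polynomial.lifts_iff_coeff_lifts]
      intro l
      exact ⟨c l, (hc' l).symm⟩
    rw [Polynomial.mem_lifts] at this
    exact this
  refine const_of_algebraic (K := N) ⟨g, ?_, ?_⟩
  · rintro rfl
    rw [Polynomial.map_zero] at hg
    exact hmon.ne_zero hg.symm
  · rw [← h0, ← hg, Polynomial.aeval_map_algebraMap]

end

section

variable {n : ℕ} {ι : Type} {F : ι → MvPolynomial (Fin (n + 1)) ℂ} {K : Type} [Field K]
  [Algebra ℂ K] {y : Fin (n + 1) → K}

/-- **Hyperbolicity, with differential fields.** -/
theorem hyp_of_diff (hX : SmoothSurface F y) (hgen : AllSubGeneral F)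
    (h : ∀ (L : Type) [Field L] [Algebra ℂ L] [Algebra K L] [IsScalarTower ℂ K L]
      (δ : Derivation ℂ L L), (∀ l, δ l = 0 → ∃ c : ℂ, l = algebraMap ℂ L c) →
      ∃ σ : SymD K, 0 < σ.d ∧ σ.Regular 2 ∧ σ.app (δ.compAlgebraMap K) ≠ 0) :
    BrodyHyperbolic F := by
  refine brody_of_const hX.irred fun φ hol hmem => ?_
  by_contra hne
  let R : ∀ h : K, Frac y h := fr hX.sub.gen
  obtain ⟨H, hH1, hH2, hH3, hH4⟩ := brody isCompact_TX TX_PM hol hmem hne
  have hnc : ∃ z, H z ≠ H 0 := nc_of_fderiv (z := 0) fun h0 => by
    rw [h0, norm_zero] at hH4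
    exact zero_ne_one hH4
  have hcv : Cv y H := cv_of_general hX.form hX.sub
    (fun K1 _ _ y1 hy1 => hgen K1 1 y1 le_rfl hy1) hH1 hH2 hH3 hnc
  set e := hcv.emb R with he
  let _ : Algebra K MK := e.toRingHom.toAlgebra
  have hal : ∀ k : K, algebraMap K MK k = e k := fun k => rfl
  have _ : IsScalarTower ℂ K MK := IsScalarTower.of_algebraMap_eq fun c => by
    rw [hal, e.commutes]
  obtain ⟨σ, hσd, hσr, hσ⟩ := h MK MDer (fun k hk => MD_eq_zero hk)
  apply hσ
  have h1 : σ.app (MDer.compAlgebraMap K) = cl (sval R σ H) (mero_sval R hcv σ) := by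
    rw [cl_sval]
    rfl
  rw [h1, cl_eq_zero]
  have h2 := (tangent_proj hX hgen R hσd hσr hH1 hH2 hH3 hnc).2
  filter_upwards [hcv.sgood R σ] with z hz
  exact h2 z hz

end

end Pool.Agent.L0h17.SD
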