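import Pool.Agent.L0h17.SD.Dif
import Pool.Agent.L0h17.SD.Defs
import Pool.Agent.W602.GT.Uni

/-!
Symmetric differentials on finite covers of a surface and hyperbolicity.
-/

set_option autoImplicit false
set_option linter.overlappingInstances false
set_option linter.unusedSectionVars false

open FF Pool.Agent.W602.GT Pool.Agent.N155 MvPolynomial
open Pool.Agent.W603.LV Pool.Agent.W619.PQ
open scoped TensorProduct

namespace Pool.Agent.L0h17.SD

section

variable {K M : Type} [Field K] [Field M] [Algebra ℂ K] [Algebra ℂ M] [Algebra K M]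
  [IsScalarTower ℂ K M] [FiniteDimensional K M]

/-- **The norm of a twisted regular symmetric differential is regular.** -/
theorem norm_regular [Algebra.EssFiniteType ℂ K] (hn : Algebra.trdeg ℂ K = (2 : ℕ))
    {ι : Type} [Fintype ι] [DecidableEq ι] (b : Module.Basis ι K M) {T : ℕ}
    {Φ : MvPolynomial M M} (hΦ : Tw b T Φ) {P : Place ℂ K} (hP : Divisorial 2 P)
    {D : Derivation ℂ K K} (hD : DerReg P D) :
    P.Reg (evD D (C (Algebra.discr K b ^ T) * NP b Φ)) := by
  have _ : Algebra.EssFiniteType ℂ M := Algebra.EssFiniteType.comp ℂ K M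
  rw [map_mul, evD_C]
  have h1 := np_lift b (D := D) (D' := DN.lft (K := M) hn D)
    (fun f => DN.lft_apply hn D f) Φ
  rw [h1]
  refine DN.loc_disc0 P b T _ fun w e hw i => ?_
  refine ev_ge hΦ.1 (fun G hG => hΦ.2 i w (Pool.Agent.Y172.divisorial_up hw hP) G hG) hw.1
    fun z hz => ?_
  exact lift_reg hn hw hP hD (fun f => DN.lft_apply hn D f) hz

/-- a basis in a spanning family -/
theorem exists_basis_of_span {κ : Type} (a : κ → M) (ha : Submodule.span K (Set.range a) = ⊤) :
    ∃ (m : ℕ) (b : Module.Basis (Fin m) K M), 0 < m ∧ ∀ i, ∃ j, b i = a j := by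
  let B := Module.Basis.ofSpan (K := K) (s := Set.range a) ha.ge
  have h1 : Finite ((linearIndepOn_empty K id).extend (Set.empty_subset (Set.range a))) :=
    Module.Finite.finite_basis B
  obtain ⟨m, ⟨e⟩⟩ := Finite.exists_equiv_fin
    ((linearIndepOn_empty K id).extend (Set.empty_subset (Set.range a)))
  refine ⟨m, B.reindex e, ?_, fun i => ?_⟩
  · have h2 := Module.finrank_eq_card_basis (B.reindex e)
    rw [Fintype.card_fin] at h2
    rw [← h2]
    exact Module.finrank_pos
  · have h2 : B.reindex e i ∈ Set.range a := by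
      rw [Module.Basis.reindex_apply]
      exact Module.Basis.ofSpan_subset ha.ge (Set.mem_range_self _)
    obtain ⟨j, hj⟩ := h2
    exact ⟨j, hj.symm⟩

theorem smulSym_app (c : M) (θ : SymD M) {L : Type} [Field L] [Algebra ℂ L] [Algebra M L]
    (D : Derivation ℂ M L) : (smulSym c θ).app D = algebraMap M L c * θ.app D := by
  unfold SymD.app smulSym
  rw [Finset.mul_sum]
  refine Finset.sum_congr rfl fun j _ => ?_
  change algebraMap M L (c * θ.h j) * _ = _
  rw [map_mul, mul_assoc]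

theorem tw_of_twisted {κ : Type} {a : κ → M} {θ : SymD M} (h : TwistedRegular a θ) :
    Tw a θ.d (SPol θ) := by
  refine ⟨spol_hom θ, fun i w hw D hD => ?_⟩
  have h1 := h.2 i w hw D hD
  rw [smulSym_app] at h1
  rw [evD_spol]
  exact h1

/-- **Twisted symmetric differentials on a finite cover.** -/
theorem hyp_of_cover {n : ℕ} {ι : Type} {F : ι → MvPolynomial (Fin (n + 1)) ℂ}
    {y : Fin (n + 1) → K} (hX : SmoothSurface F y) (hgen : AllSubGeneral F) {κ : Type}
    (a : κ → M) (ha : Submodule.span K (Set.range a) = ⊤)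
    (h : ∀ (N : Type) [Field N] [Algebra ℂ N] [Algebra M N] [IsScalarTower ℂ M N]
      (δ : Derivation ℂ N N), ComplexConstants δ →
      ∃ θ : SymD M, TwistedRegular a θ ∧ θ.app (δ.compAlgebraMap M) ≠ 0) :
    BrodyHyperbolic F := by
  classical
  have _ : Algebra.EssFiniteType ℂ K := essFinite hX.sub.gen
  refine hyp_of_diff hX hgen fun L _ _ _ _ δ hδ => ?_
  obtain ⟨T, Φ, hT, hΦ, hu⟩ := exists_unit (K := K) (M := M) a (fun N _ _ _ _ δ' hδ' => by
    obtain ⟨θ, h1, h2⟩ := h N δ' hδ'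
    exact ⟨θ.d, SPol θ, h1.1, tw_of_twisted h1, by rwa [evD_spol]⟩) δ hδ
  obtain ⟨m, b, hm, hb⟩ := exists_basis_of_span (K := K) a ha
  have hΦb : Tw b T Φ := by
    refine ⟨hΦ.1, fun i w hw D hD => ?_⟩
    obtain ⟨j, hj⟩ := hb i
    rw [hj]
    exact hΦ.2 j w hw D hD
  have hhom : (C (Algebra.discr K b ^ T) * NP b Φ).IsHomogeneous (m * T) := by
    have h1 := (np_hom b hΦ.1).C_mul (Algebra.discr K b ^ T)
    rwa [Fintype.card_fin] at h1
  obtain ⟨σ, hσd, hσ⟩ := exists_sym hhom
  refine ⟨σ, by rw [hσd]; exact Nat.mul_pos hm hT, fun P hP D hD => ?_, ?_⟩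
  · rw [hσ]
    exact norm_regular hX.sub.dim b hΦb hP hD
  · have : CharZero K := charZero_of_injective_algebraMap (algebraMap ℂ K).injective
    rw [hσ, map_mul, evD_C, ev_np]
    refine mul_ne_zero ?_ ?_
    · rw [Ne, map_eq_zero]
      exact pow_ne_zero _ (Algebra.discr_not_zero_of_basis K b)
    · have h1 := hu.map (Psi b L)
      exact ((Matrix.isUnit_iff_isUnit_det _).1 h1).ne_zero

/-- **The norm.** -/
theorem norm_sym {n : ℕ} {ι : Type} {F : ι → MvPolynomial (Fin (n + 1)) ℂ}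
    {y : Fin (n + 1) → K} (hX : SmoothSurface F y) {r : ℕ} (b : Module.Basis (Fin r) K M)
    (θ : SymD M) (hθ : TwistedRegular b θ) :
    ∃ σ : SymD K, σ.d = r * θ.d ∧ σ.Regular 2 ∧
      ∀ (D : Derivation ℂ K K) (D' : Derivation ℂ M M),
        (∀ f, D' (algebraMap K M f) = algebraMap K M (D f)) →
        σ.app D = Algebra.discr K b ^ θ.d * Algebra.norm K (θ.app D') := by
  have _ : Algebra.EssFiniteType ℂ K := essFinite hX.sub.gen
  have hΦ := tw_of_twisted hθ
  have hhom : (C (Algebra.discr K b ^ θ.d) * NP b (SPol θ)).IsHomogeneous (r * θ.d) := by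
    have h1 := (np_hom b hΦ.1).C_mul (Algebra.discr K b ^ θ.d)
    rwa [Fintype.card_fin] at h1
  obtain ⟨σ, hσd, hσ⟩ := exists_sym hhom
  refine ⟨σ, hσd, fun P hP D hD => ?_, fun D D' hD => ?_⟩
  · rw [hσ]
    exact norm_regular hX.sub.dim b hΦ hP hD
  · rw [hσ, map_mul, evD_C, np_lift b hD, evD_spol]
    rfl

theorem prod_ne {N : Type} [Field N] [Algebra ℂ N] [Algebra M N] [IsScalarTower ℂ M N]
    {δ : Derivation ℂ N N} (hδ : ComplexConstants δ) {d : ℕ} {h : M} (hh : h ≠ 0)
    {f : Fin d → M} (hf : ∀ l, Transcendental ℂ (f l)) :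
    algebraMap M N h * ∏ l, δ.compAlgebraMap M (f l) ≠ 0 := by
  refine mul_ne_zero ?_ (Finset.prod_ne_zero_iff.2 fun l _ h0 => ?_)
  · exact (map_ne_zero_iff _ (algebraMap M N).injective).2 hh
  · obtain ⟨c, hc⟩ := hδ _ h0
    apply hf l
    have hc' : algebraMap M N (f l) = algebraMap M N (algebraMap ℂ M c) := by
      rw [← IsScalarTower.algebraMap_apply ℂ M N]
      exact hc
    rw [(algebraMap M N).injective hc']
    exact isAlgebraic_algebraMap _

/-- symmetric differentials which become products on a cover -/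
theorem hyp_of_split {n : ℕ} {ι : Type} {F : ι → MvPolynomial (Fin (n + 1)) ℂ}
    {y : Fin (n + 1) → K} (hX : SmoothSurface F y) (hgen : AllSubGeneral F) {σ : SymD K}
    (hd : 0 < σ.d) (hreg : σ.Regular 2) {d : ℕ} {h : M} (hh : h ≠ 0) {f : Fin d → M}
    (hf : ∀ l, Transcendental ℂ (f l))
    (hσ : ∀ (N : Type) [Field N] [Algebra ℂ N] [Algebra M N] [Algebra K N] [IsScalarTower ℂ M N]
      [IsScalarTower K M N] (D : Derivation ℂ M N) (D₀ : Derivation ℂ K N),
      (∀ x, D (algebraMap K M x) = D₀ x) → σ.app D₀ = algebraMap M N h * ∏ l, D (f l)) :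
    BrodyHyperbolic F := by
  refine hyp_of_diff hX hgen fun L _ _ _ _ δ hδ => ⟨σ, hd, hreg, fun h0 => ?_⟩
  obtain ⟨𝔪, hm⟩ := Ideal.exists_maximal (L ⊗[K] M)
  obtain ⟨N, _, _, _, _, δ', π, hc, -, h1, h2, -⟩ := exists_diff δ hδ 𝔪 hm
  let iK : Algebra K N := ((algebraMap M N).comp (algebraMap K M)).toAlgebra
  have t1 : IsScalarTower K M N := IsScalarTower.of_algebraMap_eq fun _ => rfl
  have t2 : IsScalarTower ℂ K N := IsScalarTower.of_algebraMap_eq fun c => by
    change _ = algebraMap M N (algebraMap K M (algebraMap ℂ K c))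
    rw [← IsScalarTower.algebraMap_apply ℂ K M, ← IsScalarTower.algebraMap_apply ℂ M N]
  have h3 := hσ N (δ'.compAlgebraMap M) (δ'.compAlgebraMap K) (fun _ => rfl)
  apply prod_ne hc hh hf
  rw [← h3]
  have h4 : ∀ k : K, π (algebraMap K L k ⊗ₜ 1) = algebraMap K N k := by
    intro k
    have h5 : (algebraMap K L k ⊗ₜ[K] (1 : M)) = (1 : L) ⊗ₜ[K] algebraMap K M k := by
      rw [Algebra.algebraMap_eq_smul_one, Algebra.algebraMap_eq_smul_one,
        TensorProduct.smul_tmul]
    rw [h5, h2]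
    rfl
  have h5 : π (σ.app (δ.compAlgebraMap K) ⊗ₜ 1) = σ.app (δ'.compAlgebraMap K) := by
    have h6 : ∀ x : L, π (x ⊗ₜ 1) =
        (π.comp (Algebra.TensorProduct.includeLeftRingHom : L →+* L ⊗[K] M)) x := fun _ => rfl
    unfold SymD.app
    rw [h6, map_sum]
    refine Finset.sum_congr rfl fun j _ => ?_
    rw [map_mul, map_prod, ← h6, h4]
    congr 1
    refine Finset.prod_congr rfl fun l _ => ?_
    rw [← h6]
    change π (δ (algebraMap K L (σ.f j l)) ⊗ₜ 1) = δ' (algebraMap K N (σ.f j l))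
    rw [← h1, h4]
  rw [← h5, h0, TensorProduct.zero_tmul, map_zero]

/-- products of exact differentials -/
theorem hyp_of_prod_cover {n : ℕ} {ι : Type} {F : ι → MvPolynomial (Fin (n + 1)) ℂ}
    {y : Fin (n + 1) → K} (hX : SmoothSurface F y) (hgen : AllSubGeneral F) {κ : Type}
    (a : κ → M) (ha : Submodule.span K (Set.range a) = ⊤) {d : ℕ} {h : M} (hh : h ≠ 0)
    {f : Fin d → M} (hf : ∀ l, Transcendental ℂ (f l))
    (hreg : TwistedRegular a (⟨d, 1, fun _ => h, fun _ => f⟩ : SymD M)) :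
    BrodyHyperbolic F := by
  refine hyp_of_cover hX hgen a ha fun N _ _ _ _ δ hδ => ⟨_, hreg, ?_⟩
  unfold SymD.app
  rw [Fin.sum_univ_one]
  exact prod_ne hδ hh hf

end

end Pool.Agent.L0h17.SD
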