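import Pool.Agent.L0h17.SD.Reg
import Mathlib.RingTheory.TensorProduct.Finite
import Mathlib.LinearAlgebra.Matrix.Charpoly.Coeff

/-!
Norms of symmetric differentials in finite extensions.
-/

set_option autoImplicit false
set_option linter.overlappingInstances false
set_option linter.unusedSectionVars false

open FF Pool.Agent.W602.GT Pool.Agent.N155 MvPolynomial
open scoped TensorProduct

namespace Pool.Agent.L0h17.SD

section

variable {K M : Type} [Field K] [Field M] [Algebra K M] {ι : Type} [Fintype ι] [DecidableEq ι]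
  (b : Module.Basis ι K M)

/-- the regular representation with coefficients in `R` -/
noncomputable def Psi (R : Type) [CommRing R] [Algebra K R] : R ⊗[K] M →ₐ[R] Matrix ι ι R :=
  Algebra.TensorProduct.lift (Algebra.ofId R (Matrix ι ι R))
    ((Algebra.ofId K R).mapMatrix.comp (Algebra.leftMulMatrix b)) fun r _ =>
      Algebra.commutes r _

variable {R : Type} [CommRing R] [Algebra K R]

theorem psi_tmul (r : R) (m : M) : Psi b R (r ⊗ₜ m) =
    r • (Algebra.leftMulMatrix b m).map (algebraMap K R) := by
  unfold Psi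
  rw [Algebra.TensorProduct.lift_tmul, Algebra.smul_def]
  rfl

theorem psi_base {L : Type} [CommRing L] [Algebra K L] (φ : R →ₐ[K] L) (x : R ⊗[K] M) :
    (Psi b R x).map φ = Psi b L (Algebra.TensorProduct.map φ (AlgHom.id K M) x) := by
  induction x using TensorProduct.induction_on with
  | zero =>
    rw [map_zero, map_zero, map_zero]
    ext i j
    simp
  | tmul r m =>
    rw [Algebra.TensorProduct.map_tmul, psi_tmul, psi_tmul]
    ext i j
    rw [Matrix.map_apply, Matrix.smul_apply, Matrix.smul_apply, Matrix.map_apply,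
      Matrix.map_apply, smul_eq_mul, smul_eq_mul, map_mul, φ.commutes]
    rfl
  | add x y hx hy =>
    rw [map_add, map_add, map_add, ← hx, ← hy]
    ext i j
    simp

/-- the entries in the regular representation are homogeneous of degree `d` -/
def Hg (d : ℕ) (x : MvPolynomial K K ⊗[K] M) : Prop :=
  ∀ i j, (Psi b (MvPolynomial K K) x i j).IsHomogeneous d

variable {b}

theorem Hg.mul {d e : ℕ} {x y : MvPolynomial K K ⊗[K] M} (hx : Hg b d x) (hy : Hg b e y) :
    Hg b (d + e) (x * y) := by
  intro i j
  rw [map_mul, Matrix.mul_apply]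
  exact IsHomogeneous.sum _ _ _ fun l _ => (hx i l).mul (hy l j)

theorem Hg.sum {κ : Type} (s : Finset κ) {d : ℕ} {x : κ → MvPolynomial K K ⊗[K] M}
    (hx : ∀ i ∈ s, Hg b d (x i)) : Hg b d (∑ i ∈ s, x i) := by
  intro i j
  rw [map_sum, Matrix.sum_apply]
  exact IsHomogeneous.sum _ _ _ fun l hl => hx l hl i j

theorem Hg.neg {d : ℕ} {x : MvPolynomial K K ⊗[K] M} (hx : Hg b d x) : Hg b d (-x) := by
  intro i j
  rw [map_neg, Matrix.neg_apply]
  exact (hx i j).neg

theorem Hg.one : Hg b 0 (1 : MvPolynomial K K ⊗[K] M) := by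
  intro i j
  rw [map_one, Matrix.one_apply]
  split_ifs
  · exact isHomogeneous_one _ _
  · exact isHomogeneous_zero _ _ _

theorem Hg.pow {d : ℕ} {x : MvPolynomial K K ⊗[K] M} (hx : Hg b d x) (r : ℕ) :
    Hg b (r * d) (x ^ r) := by
  induction r with
  | zero =>
    rw [zero_mul, pow_zero]
    exact Hg.one
  | succ r ih =>
    rw [pow_succ, add_mul, one_mul]
    exact ih.mul hx

theorem Hg.prod {κ : Type} (s : Finset κ) {d : κ → ℕ} {x : κ → MvPolynomial K K ⊗[K] M}
    (hx : ∀ i ∈ s, Hg b (d i) (x i)) : Hg b (∑ i ∈ s, d i) (∏ i ∈ s, x i) := by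
  classical
  induction s using Finset.induction_on with
  | empty => exact Hg.one
  | insert a s ha ih =>
    rw [Finset.sum_insert ha, Finset.prod_insert ha]
    exact (hx a (Finset.mem_insert_self _ _)).mul
      (ih fun i hi => hx i (Finset.mem_insert_of_mem hi))

theorem hg_c (m : M) : Hg b 0 ((1 : MvPolynomial K K) ⊗ₜ m) := by
  intro i j
  rw [psi_tmul, one_smul, Matrix.map_apply]
  exact isHomogeneous_C _ _

theorem hg_x (c : K) (m : M) : Hg b 1 ((X c : MvPolynomial K K) ⊗ₜ m) := by
  intro i j
  rw [psi_tmul, Matrix.smul_apply, Matrix.map_apply, smul_eq_mul]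
  exact (isHomogeneous_X _ _).mul (isHomogeneous_C _ _)

/-- the universal derivative of an element -/
noncomputable def ux (f : M) : MvPolynomial K K ⊗[K] M :=
  -((minpoly K f).sum fun l c => (X c : MvPolynomial K K) ⊗ₜ[K]
    (f ^ l * (Polynomial.aeval f (Polynomial.derivative (minpoly K f)))⁻¹))

theorem hg_ux (f : M) : Hg b 1 (ux (K := K) f) := by
  refine Hg.neg ?_
  rw [Polynomial.sum_def]
  exact Hg.sum _ fun l _ => hg_x _ _

variable (K) in
/-- the universal value of a polynomial in the differentials -/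
noncomputable def Uv : MvPolynomial M M →+* MvPolynomial K K ⊗[K] M :=
  eval₂Hom (Algebra.TensorProduct.includeRight : M →ₐ[K] MvPolynomial K K ⊗[K] M).toRingHom
    fun f => ux f

theorem hg_uv {m : ℕ} {Φ : MvPolynomial M M} (hΦ : Φ.IsHomogeneous m) : Hg b m (Uv K Φ) := by
  unfold Uv
  rw [coe_eval₂Hom, eval₂_eq]
  refine Hg.sum _ fun s hs => ?_
  have h1 : s.degree = m := by
    by_contra hne
    exact (mem_support_iff.1 hs) (hΦ.coeff_eq_zero hne)
  have h2 : (0 : ℕ) + ∑ i ∈ s.support, s i * 1 = m := by
    rw [← h1, zero_add]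
    simp only [mul_one]
    rfl
  rw [← h2]
  exact (hg_c _).mul (Hg.prod _ fun i _ => (hg_ux i).pow _)

variable (b)

/-- the norm -/
noncomputable def NP (Φ : MvPolynomial M M) : MvPolynomial K K :=
  (Psi b (MvPolynomial K K) (Uv K Φ)).det

theorem np_hom {m : ℕ} {Φ : MvPolynomial M M} (hΦ : Φ.IsHomogeneous m) :
    (NP b Φ).IsHomogeneous (Fintype.card ι * m) := by
  unfold NP
  rw [Matrix.det_apply]
  refine IsHomogeneous.sum _ _ _ fun σ _ => ?_
  have h1 := IsHomogeneous.prod Finset.univ
    (fun i => Psi b (MvPolynomial K K) (Uv K Φ) (σ i) i) (fun _ => m)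
    fun i _ => hg_uv (b := b) hΦ _ _
  rw [Finset.sum_const, Finset.card_univ, smul_eq_mul] at h1
  rcases Int.units_eq_one_or (Equiv.Perm.sign σ) with h2 | h2
  · rw [h2, one_smul]
    exact h1
  · rw [h2, Units.neg_smul, one_smul]
    exact h1.neg

end

section

variable {K M : Type} [Field K] [Field M] [Algebra ℂ K] [Algebra ℂ M] [Algebra K M]
  [IsScalarTower ℂ K M] [FiniteDimensional K M] {ι : Type} [Fintype ι] [DecidableEq ι]
  (b : Module.Basis ι K M)

/-- the evaluation at a vector field -/
noncomputable def evA {L : Type} [Field L] [Algebra ℂ L] [Algebra K L] (D : Derivation ℂ K L) :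
    MvPolynomial K K →ₐ[K] L := aeval fun f => D f

theorem evA_eq {L : Type} [Field L] [Algebra ℂ L] [Algebra K L] (D : Derivation ℂ K L)
    (Φ : MvPolynomial K K) : evA D Φ = evD D Φ := rfl

/-- the values in the tensor product -/
noncomputable def XD {L : Type} [Field L] [Algebra ℂ L] [Algebra K L] (D : Derivation ℂ K L) :
    MvPolynomial M M →+* L ⊗[K] M :=
  (Algebra.TensorProduct.map (evA D) (AlgHom.id K M)).toRingHom.comp (Uv K)

theorem ev_np {L : Type} [Field L] [Algebra ℂ L] [Algebra K L] (D : Derivation ℂ K L)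
    (Φ : MvPolynomial M M) : evD D (NP b Φ) = (Psi b L (XD D Φ)).det := by
  rw [← evA_eq]
  unfold NP
  rw [AlgHom.map_det]
  congr 1
  exact psi_base b (evA D) (Uv K Φ)

theorem proj_xd {L N : Type} [Field L] [Algebra ℂ L] [Algebra K L] (D : Derivation ℂ K L)
    [Field N] [Algebra ℂ N] [Algebra M N] [Algebra K N] [IsScalarTower ℂ M N]
    [IsScalarTower K M N] [IsScalarTower ℂ K N] (E : Derivation ℂ M N) (π : L ⊗[K] M →+* N)
    (h1 : ∀ m, π (1 ⊗ₜ m) = algebraMap M N m)
    (h2 : ∀ x : K, E (algebraMap K M x) = π (D x ⊗ₜ 1)) (Φ : MvPolynomial M M) :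
    π (XD D Φ) = evD E Φ := by
  have : CharZero K := charZero_of_injective_algebraMap (algebraMap ℂ K).injective
  suffices h : π.comp (XD D) = evD E by
    exact DFunLike.congr_fun h Φ
  refine MvPolynomial.ringHom_ext (fun m => ?_) fun f => ?_
  · rw [RingHom.comp_apply, evD_C, ← h1]
    congr 1
    unfold XD Uv
    rw [RingHom.comp_apply, coe_eval₂Hom, eval₂_C]
    change Algebra.TensorProduct.map (evA D) (AlgHom.id K M) (1 ⊗ₜ m) = _
    rw [Algebra.TensorProduct.map_tmul, map_one]
    rfl
  · rw [RingHom.comp_apply, evD_X]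
    have h3 : XD D (X f) = -((minpoly K f).sum fun l c => (D c) ⊗ₜ[K]
        (f ^ l * (Polynomial.aeval f (Polynomial.derivative (minpoly K f)))⁻¹)) := by
      unfold XD Uv
      rw [RingHom.comp_apply, coe_eval₂Hom, eval₂_X]
      unfold ux
      rw [map_neg, Polynomial.sum_def, Polynomial.sum_def, map_sum]
      congr 1
      refine Finset.sum_congr rfl fun l _ => ?_
      change Algebra.TensorProduct.map (evA D) (AlgHom.id K M) _ = _
      rw [Algebra.TensorProduct.map_tmul]
      congr 1
      exact evD_X D _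
    have hint : IsIntegral K f := Algebra.IsIntegral.isIntegral f
    have h4 : Polynomial.aeval f (Polynomial.derivative (minpoly K f)) ≠ 0 := by
      have hsep := (minpoly.irreducible hint).separable
      exact Polynomial.Separable.aeval_derivative_ne_zero hsep (minpoly.aeval K f)
    have h5 := der_aeval (K := K) (M := M) (N := N) (D := E.compAlgebraMap K) (E := E)
      (fun _ => rfl) f (minpoly K f)
    rw [minpoly.aeval, map_zero] at h5
    have h6 : E f = -(((minpoly K f).sum fun l c => E.compAlgebraMap K c *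
        algebraMap M N f ^ l) * (algebraMap M N (Polynomial.aeval f
          (Polynomial.derivative (minpoly K f))))⁻¹) := by
      have h7 : algebraMap M N (Polynomial.aeval f (Polynomial.derivative (minpoly K f))) ≠ 0 := by
        rwa [Ne, map_eq_zero]
      field_simp
      linear_combination -h5
    rw [h3, h6, map_neg]
    congr 1
    rw [Polynomial.sum_def, Polynomial.sum_def, map_sum, Finset.sum_mul]
    refine Finset.sum_congr rfl fun l _ => ?_
    have h8 : ∀ (r : L) (m : M), π (r ⊗ₜ m) = π (r ⊗ₜ 1) * algebraMap M N m := by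
      intro r m
      rw [← h1, ← map_mul, Algebra.TensorProduct.tmul_mul_tmul, mul_one, one_mul]
    rw [h8, ← h2, map_mul, map_pow, map_inv₀, mul_assoc]
    rfl

/-- the value of the norm on vector fields of `K` -/
theorem np_lift {D : Derivation ℂ K K} {D' : Derivation ℂ M M}
    (hD : ∀ f, D' (algebraMap K M f) = algebraMap K M (D f)) (Φ : MvPolynomial M M) :
    evD D (NP b Φ) = Algebra.norm K (evD D' Φ) := by
  rw [ev_np, Algebra.norm_eq_matrix_det b]
  congr 1
  have h1 := proj_xd (L := K) (N := M) D D' (Algebra.TensorProduct.lid K M).toRingHom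
    (fun m => by
      change Algebra.TensorProduct.lid K M (1 ⊗ₜ m) = _
      rw [Algebra.TensorProduct.lid_tmul, one_smul]
      rfl)
    (fun x => by
      change _ = Algebra.TensorProduct.lid K M (D x ⊗ₜ 1)
      rw [Algebra.TensorProduct.lid_tmul, hD, Algebra.smul_def, mul_one]) Φ
  rw [← h1]
  generalize XD D Φ = x
  induction x using TensorProduct.induction_on with
  | zero => rw [map_zero, map_zero, map_zero]
  | tmul r m =>
    change _ = Algebra.leftMulMatrix b (Algebra.TensorProduct.lid K M (r ⊗ₜ m))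
    rw [psi_tmul, Algebra.TensorProduct.lid_tmul, map_smul]
    congr 1
  | add x y hx hy => rw [map_add, map_add, map_add, hx, hy]

end

end Pool.Agent.L0h17.SD
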