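import Pool.Agent.L0h17.SD.Reg
import Pool.Agent.Y173.QA.Eig
import Mathlib.RingTheory.Polynomial.Resultant.Basic
import Mathlib.LinearAlgebra.Vandermonde

/-!
The order of a resultant at a place.
-/

set_option autoImplicit false
set_option linter.overlappingInstances false
set_option linter.unusedSectionVars false

open FF Pool.Agent.W602.GT Pool.Agent.W603.LV Polynomial

namespace Pool.Agent.L0h17.SD

section

variable {K : Type} [Field K]

theorem sum_syl {N d : ℕ} {G : K[X]} (hG : G.natDegree ≤ d) (x : K) (j : ℕ) (hj : j + d < N) :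
    ∑ i : Fin N, x ^ (i : ℕ) * (if (i : ℕ) ∈ Set.Icc j (j + d) then G.coeff (i - j) else 0) =
      x ^ j * G.eval x := by
  have h1 : (X ^ j * G).natDegree < N := by
    refine lt_of_le_of_lt natDegree_mul_le ?_
    rw [natDegree_X_pow]
    omega
  have h2 := eval_eq_sum_range' h1 x
  rw [eval_mul, eval_pow, eval_X] at h2
  rw [h2, Finset.sum_range]
  refine Finset.sum_congr rfl fun i _ => ?_
  rw [coeff_X_pow_mul', mul_comm]
  congr 1
  by_cases h3 : j ≤ (i : ℕ)
  · rw [if_pos h3]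
    by_cases h4 : (i : ℕ) ∈ Set.Icc j (j + d)
    · rw [if_pos h4]
    · rw [if_neg h4, coeff_eq_zero_of_natDegree_lt]
      have : ¬ (i : ℕ) ≤ j + d := fun h => h4 (Set.mem_Icc.2 ⟨h3, h⟩)
      omega
  · rw [if_neg h3, if_neg fun h => h3 (Set.mem_Icc.1 h).1]

end

section

variable {K : Type} [Field K] [Algebra ℂ K] {v : Place ℂ K} {d : ℕ}

theorem ge_unconst {c : ℂ} (hc : c ≠ 0) {N : ℤ} {x : K} (h : Ge v N (algebraMap ℂ K c * x)) :
    Ge v N x := by
  have h1 := (Ge.const (P := v) c⁻¹).mul h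
  rwa [zero_add, ← mul_assoc, ← map_mul, inv_mul_cancel₀ hc, map_one, one_mul] at h1

theorem ge_eval {N : ℤ} {A : K[X]} (hA : ∀ j, Ge v N (A.coeff j)) (x : ℂ) :
    Ge v N (A.eval (algebraMap ℂ K x)) := by
  rw [eval_eq_sum_range]
  refine Ge.sum _ _ fun j _ => ?_
  have h1 := (hA j).mul ((Ge.const (P := v) x).pow j)
  rwa [mul_zero, add_zero] at h1

/-- **The order of the resultant.** -/
theorem res_ge {A B : K[X]} (hA : A.natDegree ≤ d) (hB : B.natDegree ≤ d)
    {e : Fin (d + d) → ℂ} (he : Function.Injective e) {γ : Fin (d + d) → ℤ}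
    (hγA : ∀ a, Ge v (γ a) (A.eval (algebraMap ℂ K (e a))))
    (hγB : ∀ a, Ge v (γ a) (B.eval (algebraMap ℂ K (e a)))) :
    Ge v (∑ a, γ a) (resultant A B d d) := by
  have h0 : (Matrix.vandermonde e).det ≠ 0 := Matrix.det_vandermonde_ne_zero_iff.2 he
  refine ge_unconst h0 ?_
  have h1 : algebraMap ℂ K (Matrix.vandermonde e).det * resultant A B d d =
      ((algebraMap ℂ K).mapMatrix (Matrix.vandermonde e) * sylvester A B d d).det := by
    rw [Matrix.det_mul, ← RingHom.map_det]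
    rfl
  rw [h1]
  refine Pool.Agent.Y173.QA.ge_det_row v _ γ fun a j => ?_
  rw [Matrix.mul_apply]
  have h2 : Ge v 0 ((algebraMap ℂ K (e a)) ^ ((j : ℕ) % d)) := by
    have := (Ge.const (P := v) (e a)).pow ((j : ℕ) % d)
    rwa [mul_zero] at this
  induction j using Fin.addCases with
  | left j =>
    have h3 : ∑ i, ((algebraMap ℂ K).mapMatrix (Matrix.vandermonde e)) a i *
        sylvester A B d d i (Fin.castAdd d j) =
        algebraMap ℂ K (e a) ^ (j : ℕ) * B.eval (algebraMap ℂ K (e a)) := by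
      rw [← sum_syl (N := d + d) hB _ (j : ℕ) (by omega)]
      refine Finset.sum_congr rfl fun i _ => ?_
      rw [RingHom.mapMatrix_apply, Matrix.map_apply, Matrix.vandermonde_apply, map_pow, sylvester,
        Matrix.of_apply, Fin.addCases_left]
    rw [h3]
    have h4 : Ge v 0 ((algebraMap ℂ K (e a)) ^ (j : ℕ)) := by
      have := (Ge.const (P := v) (e a)).pow (j : ℕ)
      rwa [mul_zero] at this
    have h5 := h4.mul (hγB a)
    rwa [zero_add] at h5
  | right j =>
    have h3 : ∑ i, ((algebraMap ℂ K).mapMatrix (Matrix.vandermonde e)) a i *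
        sylvester A B d d i (Fin.natAdd d j) =
        algebraMap ℂ K (e a) ^ (j : ℕ) * A.eval (algebraMap ℂ K (e a)) := by
      rw [← sum_syl (N := d + d) hA _ (j : ℕ) (by omega)]
      refine Finset.sum_congr rfl fun i _ => ?_
      rw [RingHom.mapMatrix_apply, Matrix.map_apply, Matrix.vandermonde_apply, map_pow, sylvester,
        Matrix.of_apply, Fin.addCases_right]
    rw [h3]
    have h4 : Ge v 0 ((algebraMap ℂ K (e a)) ^ (j : ℕ)) := by
      have := (Ge.const (P := v) (e a)).pow (j : ℕ)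
      rwa [mul_zero] at this
    have h5 := h4.mul (hγA a)
    rwa [zero_add] at h5

/-- a polynomial which is not zero at `v` has few roots at `v` -/
theorem card_le {A : K[X]} (hA : A.natDegree ≤ d) {S : Finset ℂ}
    (hS : ∀ x ∈ S, Ge v 1 (A.eval (algebraMap ℂ K x))) (hun : ∃ j, ¬ Ge v 1 (A.coeff j)) :
    S.card ≤ d := by
  by_contra hcon
  obtain ⟨T, hTS, hT⟩ := Finset.exists_subset_card_eq (n := d + 1) (s := S) (by omega)
  let e : Fin (d + 1) ≃ T := (T.equivFinOfCardEq hT).symm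
  have hinj : Function.Injective fun a => ((e a : T) : ℂ) := fun a b hab =>
    e.injective (Subtype.ext hab)
  let V := Matrix.vandermonde fun a => ((e a : T) : ℂ)
  have h0 : V.det ≠ 0 := Matrix.det_vandermonde_ne_zero_iff.2 hinj
  have h1 : ∀ a, ∑ j : Fin (d + 1), (algebraMap ℂ K).mapMatrix V a j * A.coeff j =
      A.eval (algebraMap ℂ K (e a)) := by
    intro a
    rw [eval_eq_sum_range' (lt_of_le_of_lt hA (Nat.lt_succ_self d)), Finset.sum_range]
    refine Finset.sum_congr rfl fun j _ => ?_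
    have h9 : (algebraMap ℂ K).mapMatrix V a j = algebraMap ℂ K (e a) ^ (j : ℕ) := by
      change algebraMap ℂ K (Matrix.vandermonde (fun a => ((e a : T) : ℂ)) a j) = _
      rw [Matrix.vandermonde_apply, map_pow]
    rw [h9, mul_comm]
  have h2 : ∀ j : Fin (d + 1), algebraMap ℂ K V.det * A.coeff j =
      ∑ a, algebraMap ℂ K (V.adjugate j a) * A.eval (algebraMap ℂ K (e a)) := by
    intro j
    have h3 : ((algebraMap ℂ K).mapMatrix V.adjugate *
        (algebraMap ℂ K).mapMatrix V) = algebraMap ℂ K V.det • (1 : Matrix _ _ K) := by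
      rw [← map_mul, Matrix.adjugate_mul, RingHom.mapMatrix_apply]
      ext i j
      rw [Matrix.map_apply, Matrix.smul_apply, Matrix.smul_apply, smul_eq_mul, smul_eq_mul,
        map_mul]
      congr 1
      rw [Matrix.one_apply, Matrix.one_apply]
      split_ifs <;> simp
    have h4 := congrArg (fun W : Matrix _ _ K => W.mulVec (fun i : Fin (d + 1) => A.coeff i) j) h3
    simp only [← Matrix.mulVec_mulVec, Matrix.smul_mulVec, Matrix.one_mulVec, Pi.smul_apply,
      smul_eq_mul] at h4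
    rw [← h4, Matrix.mulVec, dotProduct]
    refine Finset.sum_congr rfl fun a _ => ?_
    rw [← h1 a]
    rfl
  obtain ⟨j, hj⟩ := hun
  apply hj
  by_cases hjd : j < d + 1
  · refine ge_unconst h0 ?_
    rw [h2 ⟨j, hjd⟩]
    refine Ge.sum _ _ fun a _ => ?_
    have h5 := (Ge.const (P := v) (V.adjugate ⟨j, hjd⟩ a)).mul (hS _ (hTS (e a).2))
    rwa [zero_add] at h5
  · rw [coeff_eq_zero_of_natDegree_lt (by omega)]
    exact Ge.zero

/-- the sum over the given points -/
theorem res_ge_pts {A B : K[X]} (hA : A.natDegree ≤ d) (hB : B.natDegree ≤ d)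
    (hA0 : ∀ j, Ge v 0 (A.coeff j)) (hB0 : ∀ j, Ge v 0 (B.coeff j))
    (hun : ∃ j, ¬ Ge v 1 (A.coeff j)) {q : ℕ} {c : Fin q → ℂ} (hc : Function.Injective c)
    {β : Fin q → ℤ} (hβA : ∀ i, Ge v (β i) (A.eval (algebraMap ℂ K (c i))))
    (hβB : ∀ i, Ge v (β i - 1) (B.eval (algebraMap ℂ K (c i)))) :
    Ge v (∑ i, max (β i - 1) 0) (resultant A B d d) := by
  classical
  let S : Finset ℂ := (Finset.univ.filter fun i => 1 ≤ β i).image c
  have hS : S.card ≤ d := by
    refine card_le (v := v) hA (fun x hx => ?_) hun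
    obtain ⟨i, hi, rfl⟩ := Finset.mem_image.1 hx
    exact (hβA i).mono (Finset.mem_filter.1 hi).2
  obtain ⟨S', hSS', hS'⟩ := Infinite.exists_superset_card_eq S (d + d) (by omega)
  let e : Fin (d + d) ≃ S' := (S'.equivFinOfCardEq hS').symm
  have hinj : Function.Injective fun a => ((e a : S') : ℂ) := fun a b hab =>
    e.injective (Subtype.ext hab)
  let γ : ℂ → ℤ := fun x => ∑ i, if c i = x ∧ 1 ≤ β i then β i - 1 else 0
  have hγ1 : ∀ i, 1 ≤ β i → γ (c i) = β i - 1 := by
    intro i hi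
    change (∑ j, if c j = c i ∧ 1 ≤ β j then β j - 1 else 0) = _
    rw [Finset.sum_eq_single i]
    · rw [if_pos ⟨rfl, hi⟩]
    · intro j _ hj
      rw [if_neg fun h => hj (hc h.1)]
    · intro h
      exact absurd (Finset.mem_univ _) h
  have hγ0 : ∀ x, (¬ ∃ i, c i = x ∧ 1 ≤ β i) → γ x = 0 := by
    intro x hx
    refine Finset.sum_eq_zero fun i _ => ?_
    rw [if_neg fun h => hx ⟨i, h⟩]
  have h1 : ∑ a, γ (e a) = ∑ i, max (β i - 1) 0 := by
    have h2 : ∑ a, γ (e a) = ∑ x ∈ S', γ x := by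
      rw [← Finset.sum_coe_sort S' γ, ← e.sum_comp]
    rw [h2]
    change ∑ x ∈ S', ∑ i, (if c i = x ∧ 1 ≤ β i then β i - 1 else 0) = _
    rw [Finset.sum_comm]
    refine Finset.sum_congr rfl fun i _ => ?_
    by_cases hi : 1 ≤ β i
    · have hmem : c i ∈ S' := hSS' (Finset.mem_image.2
        ⟨i, Finset.mem_filter.2 ⟨Finset.mem_univ _, hi⟩, rfl⟩)
      rw [Finset.sum_eq_single (c i)]
      · rw [if_pos ⟨rfl, hi⟩, max_eq_left (by omega)]
      · intro x _ hx
        rw [if_neg fun h => hx h.1.symm]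
      · intro h
        exact absurd hmem h
    · rw [max_eq_right (by omega)]
      refine Finset.sum_eq_zero fun x _ => ?_
      rw [if_neg fun h => hi h.2]
  rw [← h1]
  refine res_ge hA hB hinj (fun a => ?_) fun a => ?_
  · by_cases hx : ∃ i, c i = (e a : ℂ) ∧ 1 ≤ β i
    · obtain ⟨i, hi1, hi2⟩ := hx
      rw [← hi1, hγ1 i hi2]
      exact (hβA i).mono (by omega)
    · rw [hγ0 _ hx]
      exact ge_eval hA0 _
  · by_cases hx : ∃ i, c i = (e a : ℂ) ∧ 1 ≤ β i
    · obtain ⟨i, hi1, hi2⟩ := hx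
      rw [← hi1, hγ1 i hi2]
      exact hβB i
    · rw [hγ0 _ hx]
      exact ge_eval hB0 _

end

end Pool.Agent.L0h17.SD
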