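import Pool.Agent.L0h17.SD.Osc
import Mathlib.FieldTheory.IsAlgClosed.AlgebraicClosure

/-!
The resultant of a polynomial and the polynomial of the differentials of its coefficients.
-/

set_option autoImplicit false
set_option linter.overlappingInstances false
set_option linter.unusedSectionVars false

open FF Pool.Agent.W602.GT Pool.Agent.W603.LV Polynomial

namespace Pool.Agent.L0h17.SD

section

variable {K : Type} [Field K] [Algebra ℂ K]

/-- the polynomial of the derivatives of the coefficients -/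
noncomputable def pD {L : Type} [Field L] [Algebra ℂ L] [Algebra K L] (D : Derivation ℂ K L)
    (P : K[X]) : L[X] := P.sum fun l c => monomial l (D c)

/-- the universal polynomial of the derivatives of the coefficients -/
noncomputable def pU (P : K[X]) : (MvPolynomial K K)[X] :=
  P.sum fun l c => monomial l (MvPolynomial.X c)

/-- the universal resultant -/
noncomputable def RU (P : K[X]) (d : ℕ) : MvPolynomial K K :=
  resultant (P.map MvPolynomial.C) (pU P) d d

variable {L : Type} [Field L] [Algebra ℂ L] [Algebra K L] (D : Derivation ℂ K L)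

theorem pD_coeff (P : K[X]) (l : ℕ) : (pD D P).coeff l = D (P.coeff l) := by
  unfold pD
  rw [Polynomial.sum_def, finset_sum_coeff]
  simp only [coeff_monomial]
  rw [Finset.sum_ite_eq' P.support l (fun i => D (P.coeff i))]
  split_ifs with h
  · rfl
  · rw [notMem_support_iff.1 h, map_zero]

open Classical in
theorem pU_coeff (P : K[X]) (l : ℕ) :
    (pU P).coeff l = if P.coeff l = 0 then 0 else MvPolynomial.X (P.coeff l) := by
  unfold pU
  rw [Polynomial.sum_def, finset_sum_coeff]
  simp only [coeff_monomial]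
  rw [Finset.sum_ite_eq' P.support l (fun i => (MvPolynomial.X (P.coeff i) : MvPolynomial K K))]
  by_cases h : P.coeff l = 0
  · rw [if_neg (fun h1 => (mem_support_iff.1 h1) h), if_pos h]
  · rw [if_pos (mem_support_iff.2 h), if_neg h]

theorem pD_natDegree (P : K[X]) : (pD D P).natDegree ≤ P.natDegree := by
  rw [natDegree_le_iff_coeff_eq_zero]
  intro N hN
  rw [pD_coeff, coeff_eq_zero_of_natDegree_lt hN, map_zero]

theorem map_pU (P : K[X]) : (pU P).map (evD D) = pD D P := by
  ext l
  rw [coeff_map, pU_coeff, pD_coeff]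
  split_ifs with h
  · rw [h, map_zero, map_zero]
  · rw [evD_X]

theorem evD_RU (P : K[X]) (d : ℕ) :
    evD D (RU P d) = resultant (P.map (algebraMap K L)) (pD D P) d d := by
  unfold RU
  rw [← resultant_map_map, map_pU, Polynomial.map_map]
  congr 2
  ext x
  exact evD_C D x

theorem RU_hom (P : K[X]) (d : ℕ) : (RU P d).IsHomogeneous d := by
  unfold RU resultant
  rw [Matrix.det_apply]
  refine MvPolynomial.IsHomogeneous.sum _ _ _ fun σ _ => ?_
  have h1 := MvPolynomial.IsHomogeneous.prod (Finset.univ : Finset (Fin (d + d)))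
    (fun i => sylvester (P.map MvPolynomial.C) (pU P) d d (σ i) i)
    (fun i => Fin.addCases (fun _ => 1) (fun _ => 0) i) fun i _ => by
      induction i using Fin.addCases with
      | left i =>
        rw [sylvester, Matrix.of_apply, Fin.addCases_left, Fin.addCases_left]
        split_ifs
        · rw [pU_coeff]
          split_ifs
          · exact MvPolynomial.isHomogeneous_zero _ _ _
          · exact MvPolynomial.isHomogeneous_X _ _
        · exact MvPolynomial.isHomogeneous_zero _ _ _
      | right i =>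
        rw [sylvester, Matrix.of_apply, Fin.addCases_right, Fin.addCases_right]
        split_ifs
        · rw [coeff_map]
          exact MvPolynomial.isHomogeneous_C _ _
        · exact MvPolynomial.isHomogeneous_zero _ _ _
  have h2 : ∑ i : Fin (d + d), (Fin.addCases (fun _ => 1) (fun _ => 0) i : ℕ) = d := by
    rw [Fin.sum_univ_add]
    simp only [Fin.addCases_left, Fin.addCases_right]
    simp
  rw [h2] at h1
  rcases Int.units_eq_one_or (Equiv.Perm.sign σ) with h3 | h3
  · rw [h3, one_smul]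
    exact h1
  · rw [h3, Units.neg_smul, one_smul]
    exact h1.neg

theorem pD_eval [IsScalarTower ℂ K L] (P : K[X]) (c : ℂ) :
    (pD D P).eval (algebraMap ℂ L c) = D (P.eval (algebraMap ℂ K c)) := by
  have h1 : (pD D P).natDegree < P.natDegree + 1 := Nat.lt_succ_of_le (pD_natDegree D P)
  rw [eval_eq_sum_range' h1, eval_eq_sum_range, map_sum]
  refine Finset.sum_congr rfl fun l _ => ?_
  rw [pD_coeff, D.leibniz, ← map_pow, ← map_pow, D.map_algebraMap, smul_zero, zero_add,
    Algebra.smul_def, ← IsScalarTower.algebraMap_apply ℂ K L, mul_comm]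

end

section

variable {K : Type} [Field K] [Algebra ℂ K]

theorem pD_scale (D : Derivation ℂ K K) (a : K) (P : K[X]) :
    pD D (C a * P) = C a * pD D P + C (D a) * P := by
  ext l
  rw [pD_coeff, coeff_add, coeff_C_mul, coeff_C_mul, coeff_C_mul, pD_coeff, D.leibniz,
    smul_eq_mul, smul_eq_mul]
  ring

theorem res_scale (D : Derivation ℂ K K) {P : K[X]} {d : ℕ} (hP : P.natDegree ≤ d) {t : K}
    (ht : t ≠ 0) : resultant P (pD D P) d d =
      t ^ (2 * d) * resultant (C t⁻¹ * P) (pD D (C t⁻¹ * P)) d d := by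
  obtain ⟨P1, hP1⟩ : ∃ P1, P1 = C t⁻¹ * P := ⟨_, rfl⟩
  have h1 : P = C t * P1 := by
    rw [hP1, ← mul_assoc, ← C_mul, mul_inv_cancel₀ ht, C_1, one_mul]
  have h2 : P1.natDegree ≤ d := by
    rw [hP1]
    exact (natDegree_C_mul_le _ _).trans hP
  rw [← hP1]
  have h3 : pD D P = C t * (pD D P1 + P1 * C (t⁻¹ * D t)) := by
    rw [h1, pD_scale, mul_add]
    congr 1
    have h4 : C t * (P1 * C (t⁻¹ * D t)) = (C t * C t⁻¹) * (C (D t) * P1) := by
      rw [C_mul]
      ring
    rw [h4, ← C_mul, mul_inv_cancel₀ ht, C_1, one_mul]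
  rw [h3]
  conv_lhs => rw [h1]
  rw [resultant_C_mul_left, resultant_C_mul_right, resultant_add_mul_right _ _ _ _ _
    (by rw [natDegree_C, zero_add]) h2]
  ring

/-- **The order of the resultant of `P` and of its derivative.** -/
theorem res_der_ge {v : Place ℂ K} {D : Derivation ℂ K K} (hD : DerReg v D) {P : K[X]} {d : ℕ}
    (hP : P.natDegree ≤ d) {g : ℤ} (hg1 : ∀ j, Ge v g (P.coeff j))
    (hg2 : ∃ j, P.coeff j ≠ 0 ∧ v.ord (P.coeff j) = g) {q : ℕ} {c : Fin q → ℂ}
    (hc : Function.Injective c) (h0 : ∀ i, P.eval (algebraMap ℂ K (c i)) ≠ 0) :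
    Ge v (2 * d * g + ∑ i, max (v.ord (P.eval (algebraMap ℂ K (c i))) - g - 1) 0)
      (resultant P (pD D P) d d) := by
  obtain ⟨u, hu0, hu⟩ := v.surj
  obtain ⟨t, ht⟩ : ∃ t, t = u ^ g := ⟨_, rfl⟩
  have ht0 : t ≠ 0 := ht ▸ zpow_ne_zero _ hu0
  have hto : v.ord t = g := by rw [ht, v.ord_zpow, hu, mul_one]
  rw [res_scale D hP ht0]
  obtain ⟨P1, hP1⟩ : ∃ P1, P1 = C t⁻¹ * P := ⟨_, rfl⟩
  rw [← hP1]
  have htinv : Ge v (-g) t⁻¹ := Or.inr (by rw [v.ord_inv, hto])
  have hA0 : ∀ j, Ge v 0 (P1.coeff j) := by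
    intro j
    rw [hP1, coeff_C_mul]
    have := htinv.mul (hg1 j)
    rwa [neg_add_cancel] at this
  have hB0 : ∀ j, Ge v 0 ((pD D P1).coeff j) := by
    intro j
    rw [pD_coeff]
    exact hD _ (hA0 j)
  have hun : ∃ j, ¬ Ge v 1 (P1.coeff j) := by
    obtain ⟨j, hj0, hj⟩ := hg2
    refine ⟨j, fun h => ?_⟩
    rw [hP1, coeff_C_mul] at h
    rcases h with h | h
    · exact (mul_ne_zero (inv_ne_zero ht0) hj0) h
    · rw [v.ord_mul (inv_ne_zero ht0) hj0, v.ord_inv, hto, hj] at h
      omega
  have hev : ∀ i, P1.eval (algebraMap ℂ K (c i)) = t⁻¹ * P.eval (algebraMap ℂ K (c i)) := by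
    intro i
    rw [hP1, eval_mul, eval_C]
  have hord : ∀ i, v.ord (P1.eval (algebraMap ℂ K (c i))) =
      v.ord (P.eval (algebraMap ℂ K (c i))) - g := by
    intro i
    rw [hev, v.ord_mul (inv_ne_zero ht0) (h0 i), v.ord_inv, hto]
    ring
  have h1 := res_ge_pts (v := v) (A := P1) (B := pD D P1) (d := d)
    (by rw [hP1]; exact (natDegree_C_mul_le _ _).trans hP)
    ((pD_natDegree D P1).trans (by rw [hP1]; exact (natDegree_C_mul_le _ _).trans hP))
    hA0 hB0 hun hc (β := fun i => v.ord (P.eval (algebraMap ℂ K (c i))) - g)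
    (fun i => Or.inr (by rw [hord]))
    (fun i => by
      rw [pD_eval, ← hord]
      exact Pool.Agent.Y172.ge_der_reg hD _)
  have h2 : Ge v (2 * d * g) (t ^ (2 * d)) := by
    right
    rw [v.ord_pow, hto]
    push_cast
    exact le_rfl
  exact h2.mul h1

/-- **The resultant does not vanish on differential fields.** -/
theorem res_ne {L : Type} [Field L] [Algebra ℂ L] [Algebra K L] [IsScalarTower ℂ K L]
    (δ : Derivation ℂ L L) (hδ : ∀ l, δ l = 0 → ∃ c : ℂ, l = algebraMap ℂ L c)
    {P : K[X]} (hmon : P.Monic) (hsep : P.Separable)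
    (hroot : ∀ c : ℂ, P.eval (algebraMap ℂ K c) ≠ 0) :
    resultant (P.map (algebraMap K L)) (pD (δ.compAlgebraMap K) P) P.natDegree P.natDegree ≠ 0 := by
  classical
  have : CharZero L := charZero_of_injective_algebraMap (algebraMap ℂ L).injective
  obtain ⟨B, hB⟩ : ∃ B, B = pD (δ.compAlgebraMap K) P := ⟨_, rfl⟩
  have hBd : B.natDegree ≤ P.natDegree := hB ▸ pD_natDegree _ P
  obtain ⟨k, hk⟩ := Nat.exists_eq_add_of_le hBd
  have hmonL : (P.map (algebraMap K L)).Monic := hmon.map _
  have hnd : (P.map (algebraMap K L)).natDegree = P.natDegree := hmon.natDegree_map _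
  intro h0
  rw [← hB] at h0
  have h1 : resultant (P.map (algebraMap K L)) B = 0 := by
    have h2 := resultant_add_right_deg (P.map (algebraMap K L)) B
      (P.map (algebraMap K L)).natDegree B.natDegree k le_rfl
    rw [← hk, hmonL.coeff_natDegree, one_pow, one_mul, hnd] at h2
    rw [hnd, ← h2]
    exact h0
  rw [resultant_eq_zero_iff] at h1
  obtain ⟨-, hcop⟩ := h1
  -- a common root
  let N := AlgebraicClosure L
  have hgcd : ¬ IsUnit (EuclideanDomain.gcd (P.map (algebraMap K L)) B) := by
    intro h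
    exact hcop (EuclideanDomain.gcd_isUnit_iff.1 h)
  have hne : EuclideanDomain.gcd (P.map (algebraMap K L)) B ≠ 0 := by
    intro h
    rw [EuclideanDomain.gcd_eq_zero_iff] at h
    exact hmonL.ne_zero h.1
  obtain ⟨t, ht⟩ := IsAlgClosed.exists_aeval_eq_zero N
    (EuclideanDomain.gcd (P.map (algebraMap K L)) B) (fun h => hgcd
      (isUnit_iff_degree_eq_zero.2 h))
  have ht1 : aeval t (P.map (algebraMap K L)) = 0 := by
    obtain ⟨r, hr⟩ := EuclideanDomain.gcd_dvd_left (P.map (algebraMap K L)) B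
    rw [hr, map_mul, ht, zero_mul]
  have ht2 : aeval t B = 0 := by
    obtain ⟨r, hr⟩ := EuclideanDomain.gcd_dvd_right (P.map (algebraMap K L)) B
    rw [hr, map_mul, ht, zero_mul]
  have _ : Algebra.IsSeparable L N := Algebra.IsAlgebraic.isSeparable_of_perfectField
  obtain ⟨δ', hδ'⟩ := Pool.Agent.Y190.BV.exists_ext (k := ℂ) (K := L) (L := N) δ
  have ht3 : aeval t P = 0 := by
    rw [← ht1, aeval_map_algebraMap]
  have h3 := der_aeval (K := K) (M := N) (N := N) (D := δ'.compAlgebraMap K) (E := δ')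
    (fun _ => rfl) t P
  have h4 : (P.sum fun l c => δ'.compAlgebraMap K c * algebraMap N N t ^ l) = aeval t B := by
    rw [hB]
    unfold pD
    rw [Polynomial.sum_def, Polynomial.sum_def, map_sum]
    refine Finset.sum_congr rfl fun l _ => ?_
    rw [aeval_monomial]
    congr 1
    change δ' (algebraMap K N (P.coeff l)) = algebraMap L N (δ (algebraMap K L (P.coeff l)))
    rw [← hδ', ← IsScalarTower.algebraMap_apply K L N]
  rw [ht3, map_zero, h4, ht2, zero_add] at h3
  have h5 : aeval t (derivative P) ≠ 0 := hsep.aeval_derivative_ne_zero ht3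
  have h6 : δ' t = 0 := (mul_eq_zero.1 h3.symm).resolve_left h5
  obtain ⟨c, hc⟩ := const_ext hδ' hδ t h6
  apply hroot c
  apply (algebraMap K N).injective
  rw [map_zero, ← ht3, hc, IsScalarTower.algebraMap_apply ℂ K N, aeval_algebraMap_apply,
    coe_aeval_eq_eval]

end

end Pool.Agent.L0h17.SD
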