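import Pool.Agent.N155.Defs
import Mathlib.Algebra.Polynomial.Basic

/-!
Rational maps to projective space and the hyperplanes which osculate the rational normal curve.
-/

set_option autoImplicit false

open FF Pool.Agent.W602.GT

namespace Pool.Agent.L0h17.SD

variable {K : Type} [Field K] [Algebra ℂ K] {d : ℕ}

/-- The polynomial `f 0 + f 1 * T + ⋯ + f d * T ^ d` of the rational map `(f 0 : ⋯ : f d)`. Its
roots are the `d` points of the projective line which correspond to a point of
`ℙ^d = Sym^d ℙ^1`. -/
noncomputable def oscPoly (f : Fin (d + 1) → K) : Polynomial K :=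
  ∑ j : Fin (d + 1), Polynomial.monomial (j : ℕ) (f j)

/-- The value `f 0 + c * f 1 + ⋯ + c ^ d * f d` of the linear form of the hyperplane
`H_c : x 0 + c * x 1 + ⋯ + c ^ d * x d = 0` of `ℙ^d`. The hyperplanes `H_c` are the osculating
hyperplanes of a rational normal curve, for `d = 2` the tangent lines of a conic. -/
noncomputable def oscForm (f : Fin (d + 1) → K) (c : ℂ) : K :=
  ∑ j : Fin (d + 1), algebraMap ℂ K (c ^ (j : ℕ)) * f j

/-- The integer `g` is the smallest order at `v` of the functions `f j`. -/
def OrderOf (v : Place ℂ K) (f : Fin (d + 1) → K) (g : ℤ) : Prop :=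
  (∀ j, f j = 0 ∨ g ≤ v.ord (f j)) ∧ ∃ j, f j ≠ 0 ∧ v.ord (f j) = g

/-- The rational map `(f 0 : ⋯ : f d)` of the surface with function field `K` meets the hyperplane
`H_c` with multiplicities at least `n`: at every prime divisor (of a smooth projective model) the
order of the pull-back of `H_c` is zero or at least `n`. -/
def MeetsWith (f : Fin (d + 1) → K) (c : ℂ) (n : ℕ) : Prop :=
  ∀ v : Place ℂ K, Divisorial 2 v → ∀ g : ℤ, OrderOf v f g →
    v.ord (oscForm f c) = g ∨ g + n ≤ v.ord (oscForm f c)

end Pool.Agent.L0h17.SD
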