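import Pool.Agent.L0h17.SD.Osc2
import Pool.Agent.L0h17.SD.OscDefs

/-!
Rational maps to projective space ramified over osculating hyperplanes, and hyperbolicity.
-/

set_option autoImplicit false
set_option linter.overlappingInstances false
set_option linter.unusedSectionVars false

open FF Pool.Agent.W602.GT Pool.Agent.W603.LV Pool.Agent.N155 Polynomial

namespace Pool.Agent.L0h17.SD

section

variable {K : Type} [Field K] [Algebra ℂ K] {d : ℕ}

theorem osc_coeff (f : Fin (d + 1) → K) (j : Fin (d + 1)) : (oscPoly f).coeff j = f j := by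
  unfold oscPoly
  rw [finset_sum_coeff, Finset.sum_eq_single j]
  · rw [coeff_monomial, if_pos rfl]
  · intro i _ hi
    rw [coeff_monomial, if_neg fun h => hi (Fin.ext h)]
  · intro h
    exact absurd (Finset.mem_univ _) h

theorem osc_coeff_gt (f : Fin (d + 1) → K) {l : ℕ} (hl : d < l) : (oscPoly f).coeff l = 0 := by
  unfold oscPoly
  rw [finset_sum_coeff]
  refine Finset.sum_eq_zero fun i _ => ?_
  rw [coeff_monomial, if_neg (by have := i.2; omega)]

theorem osc_natDegree (f : Fin (d + 1) → K) : (oscPoly f).natDegree ≤ d :=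
  natDegree_le_iff_coeff_eq_zero.2 fun _ h => osc_coeff_gt f h

theorem osc_eval (f : Fin (d + 1) → K) (c : ℂ) :
    (oscPoly f).eval (algebraMap ℂ K c) = oscForm f c := by
  unfold oscPoly oscForm
  rw [eval_finset_sum]
  refine Finset.sum_congr rfl fun j _ => ?_
  rw [eval_monomial, map_pow, mul_comm]

theorem osc_monic {f : Fin (d + 1) → K} (h : f (Fin.last d) = 1) : (oscPoly f).Monic := by
  refine monic_of_natDegree_le_of_coeff_eq_one d (osc_natDegree f) ?_
  have := osc_coeff f (Fin.last d)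
  rw [h] at this
  exact this

theorem osc_natDegree_eq {f : Fin (d + 1) → K} (h : f (Fin.last d) = 1) :
    (oscPoly f).natDegree = d := by
  refine le_antisymm (osc_natDegree f) (le_natDegree_of_ne_zero ?_)
  have := osc_coeff f (Fin.last d)
  rw [h] at this
  change (oscPoly f).coeff ((Fin.last d : Fin (d + 1)) : ℕ) ≠ 0
  rw [this]
  exact one_ne_zero

/-- the monic case -/
theorem hyp_monic {n : ℕ} {ι : Type} {F : ι → MvPolynomial (Fin (n + 1)) ℂ}
    {y : Fin (n + 1) → K} (hX : SmoothSurface F y) (hgen : AllSubGeneral F) (hd : 0 < d)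
    {f : Fin (d + 1) → K} (hlast : f (Fin.last d) = 1) (hsep : (oscPoly f).Separable)
    (hroot : ∀ c : ℂ, oscForm f c ≠ 0) {q : ℕ} {c : Fin q → ℂ} (hc : Function.Injective c)
    {N : Fin q → ℕ} (hN : ∀ i, 1 ≤ N i) (hsum : (2 * d : ℚ) ≤ ∑ i, (1 - 1 / (N i : ℚ)))
    (hmeet : ∀ i, MeetsWith f (c i) (N i)) : BrodyHyperbolic F := by
  classical
  obtain ⟨P, hP⟩ : ∃ P, P = oscPoly f := ⟨_, rfl⟩
  have hPd : P.natDegree = d := hP ▸ osc_natDegree_eq hlast
  have hPm : P.Monic := hP ▸ osc_monic hlast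
  have hPc : ∀ c, P.eval (algebraMap ℂ K c) = oscForm f c := fun c => hP ▸ osc_eval f c
  obtain ⟨m, hm⟩ : ∃ m, m = ∏ i, N i := ⟨_, rfl⟩
  have hmpos : 0 < m := hm ▸ Finset.prod_pos fun i _ => hN i
  obtain ⟨k, hk⟩ : ∃ k : Fin q → ℕ, ∀ i, N i * k i = m := ⟨fun i => m / N i, fun i =>
    Nat.mul_div_cancel' (hm ▸ Finset.dvd_prod_of_mem _ (Finset.mem_univ i))⟩
  have hkm : ∀ i, k i ≤ m := fun i => by
    rw [← hk i]
    exact Nat.le_mul_of_pos_left _ (hN i)
  have hE : (2 * d * m : ℤ) ≤ ∑ i, ((m : ℤ) - k i) := by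
    have h1 : ((2 * d * m : ℤ) : ℚ) ≤ ((∑ i, ((m : ℤ) - k i) : ℤ) : ℚ) := by
      push_cast
      have h2 : ∑ i, ((m : ℚ) - k i) = m * ∑ i, (1 - 1 / (N i : ℚ)) := by
        rw [Finset.mul_sum]
        refine Finset.sum_congr rfl fun i _ => ?_
        have h3 : (N i : ℚ) ≠ 0 := by exact_mod_cast Nat.one_le_iff_ne_zero.1 (hN i)
        have h4 : (m : ℚ) = N i * k i := by exact_mod_cast (hk i).symm
        rw [h4]
        field_simp
      rw [h2]
      have h3 : (0 : ℚ) ≤ m := by positivity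
      nlinarith
    exact_mod_cast h1
  obtain ⟨A, hA⟩ : ∃ A : K, A = ∏ i, (P.eval (algebraMap ℂ K (c i))) ^ (m - k i) := ⟨_, rfl⟩
  have hA0 : A ≠ 0 := by
    rw [hA]
    refine Finset.prod_ne_zero_iff.2 fun i _ => pow_ne_zero _ ?_
    rw [hPc]
    exact hroot _
  have hhom : (MvPolynomial.C A⁻¹ * RU P d ^ m).IsHomogeneous (d * m) :=
    ((RU_hom P d).pow m).C_mul _
  obtain ⟨σ, hσd, hσ⟩ := exists_sym hhom
  refine hyp_of_diff hX hgen fun L _ _ _ _ δ hδ =>
    ⟨σ, by rw [hσd]; exact Nat.mul_pos hd hmpos, fun v hv D hD => ?_, ?_⟩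
  · rw [hσ, map_mul, map_pow, evD_C, evD_RU]
    have h1 : P.map (algebraMap K K) = P := Polynomial.map_id
    rw [h1]
    -- the order of `f`
    obtain ⟨j0, hj0, hmin⟩ := Finset.exists_min_image
      (Finset.univ.filter fun j => f j ≠ 0) (fun j => v.ord (f j))
      ⟨Fin.last d, Finset.mem_filter.2 ⟨Finset.mem_univ _, by rw [hlast]; exact one_ne_zero⟩⟩
    obtain ⟨g, hg⟩ : ∃ g, g = v.ord (f j0) := ⟨_, rfl⟩
    have hord : OrderOf v f g := by
      refine ⟨fun j => ?_, j0, (Finset.mem_filter.1 hj0).2, hg.symm⟩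
      by_cases hj : f j = 0
      · exact Or.inl hj
      · right
        rw [hg]
        exact hmin j (Finset.mem_filter.2 ⟨Finset.mem_univ _, hj⟩)
    have hg0 : g ≤ 0 := by
      have h2 := (hord.1 (Fin.last d)).resolve_left (by rw [hlast]; exact one_ne_zero)
      rw [hlast, v.ord_one] at h2
      exact h2
    have h2 := res_der_ge (v := v) hD (P := P) hPd.le (g := g) (fun j => by
        by_cases hj : j < d + 1
        · have h3 := osc_coeff f ⟨j, hj⟩
          rw [hP]
          change Ge v g ((oscPoly f).coeff ((⟨j, hj⟩ : Fin (d + 1)) : ℕ))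
          rw [h3]
          exact hord.1 _
        · rw [hP, osc_coeff_gt f (by omega)]
          exact Ge.zero)
      (by
        obtain ⟨j, hj1, hj2⟩ := hord.2
        refine ⟨j, ?_⟩
        rw [hP, osc_coeff]
        exact ⟨hj1, hj2⟩) hc (fun i => by rw [hPc]; exact hroot _)
    have h3 := h2.pow m
    have h4 : Ge v (-∑ i, ((m : ℤ) - k i) * v.ord (P.eval (algebraMap ℂ K (c i)))) A⁻¹ := by
      right
      rw [v.ord_inv, hA, Pool.Agent.W619.PQ.ord_prod _ v _ fun i _ => pow_ne_zero _ (by rw [hPc]; exact hroot _)]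
      apply le_of_eq
      congr 1
      refine Finset.sum_congr rfl fun i _ => ?_
      rw [v.ord_pow, Nat.cast_sub (hkm i)]
    have h5 := h4.mul h3
    refine h5.mono ?_
    have h6 : ∀ i, ((m : ℤ) - k i) * v.ord (P.eval (algebraMap ℂ K (c i))) ≤
        ((m : ℤ) - k i) * g +
          m * max (v.ord (P.eval (algebraMap ℂ K (c i))) - g - 1) 0 := by
      intro i
      rw [hPc]
      have h7 : (m : ℤ) = N i * k i := by exact_mod_cast (hk i).symm
      have h8 : (0 : ℤ) ≤ k i := Int.natCast_nonneg _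
      have h9 : (1 : ℤ) ≤ N i := by exact_mod_cast hN i
      rcases hmeet i v hv g hord with h10 | h10
      · rw [h10]
        have h11 : (0 : ℤ) ≤ m * max (g - g - 1) 0 :=
          mul_nonneg (Int.natCast_nonneg _) (le_max_right _ _)
        linarith
      · obtain ⟨β, hβ⟩ : ∃ β, β = v.ord (oscForm f (c i)) - g := ⟨_, rfl⟩
        have h11 : v.ord (oscForm f (c i)) = g + β := by omega
        have h12 : (N i : ℤ) ≤ β := by omega
        rw [h11]
        have h13 : max (g + β - g - 1) 0 = β - 1 := by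
          rw [max_eq_left (by omega)]
          ring
        rw [h13, h7]
        nlinarith [mul_nonneg h8 (sub_nonneg.2 h12)]
    have h7 := Finset.sum_le_sum fun i (_ : i ∈ Finset.univ) => h6 i
    rw [Finset.sum_add_distrib, ← Finset.sum_mul, ← Finset.mul_sum] at h7
    have h8 : (0 : ℤ) ≤ (∑ i, ((m : ℤ) - k i) - 2 * d * m) * (-g) :=
      mul_nonneg (by linarith) (by linarith)
    nlinarith
  · rw [hσ, map_mul, map_pow, evD_C, evD_RU]
    have : CharZero K := charZero_of_injective_algebraMap (algebraMap ℂ K).injective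
    refine mul_ne_zero ?_ (pow_ne_zero _ ?_)
    · rw [Ne, map_eq_zero]
      exact inv_ne_zero hA0
    · have h1 := res_ne δ hδ hPm (hP ▸ hsep) (fun c => by rw [hPc]; exact hroot c)
      rwa [hPd] at h1

/-- **Rational maps ramified over osculating hyperplanes.** -/
theorem hyp_of_osc {n : ℕ} {ι : Type} {F : ι → MvPolynomial (Fin (n + 1)) ℂ}
    {y : Fin (n + 1) → K} (hX : SmoothSurface F y) (hgen : AllSubGeneral F) (hd : 0 < d)
    {f : Fin (d + 1) → K} (hlast : f (Fin.last d) ≠ 0) (hsep : (oscPoly f).Separable)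
    (hroot : ∀ c : ℂ, oscForm f c ≠ 0) {q : ℕ} {c : Fin q → ℂ} (hc : Function.Injective c)
    {N : Fin q → ℕ} (hN : ∀ i, 1 ≤ N i) (hsum : (2 * d : ℚ) ≤ ∑ i, (1 - 1 / (N i : ℚ)))
    (hmeet : ∀ i, MeetsWith f (c i) (N i)) : BrodyHyperbolic F := by
  obtain ⟨a, ha⟩ : ∃ a, a = f (Fin.last d) := ⟨_, rfl⟩
  have ha0 : a ≠ 0 := ha ▸ hlast
  obtain ⟨f', hf'⟩ : ∃ f' : Fin (d + 1) → K, f' = fun j => a⁻¹ * f j := ⟨_, rfl⟩
  have hff : ∀ j, f j = a * f' j := fun j => by
    rw [hf']
    change f j = a * (a⁻¹ * f j)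
    rw [mul_inv_cancel_left₀ ha0]
  have hform : ∀ c, oscForm f c = a * oscForm f' c := fun c => by
    unfold oscForm
    rw [Finset.mul_sum]
    refine Finset.sum_congr rfl fun j _ => ?_
    rw [hff]
    ring
  have hpoly : oscPoly f = C a * oscPoly f' := by
    unfold oscPoly
    rw [Finset.mul_sum]
    refine Finset.sum_congr rfl fun j _ => ?_
    rw [C_mul_monomial, ← hff]
  have hroot' : ∀ c, oscForm f' c ≠ 0 := fun c h => by
    apply hroot c
    rw [hform, h, mul_zero]
  refine hyp_monic hX hgen hd (f := f') ?_ ?_ hroot' hc hN hsum fun i v hv g hg => ?_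
  · rw [hf']
    change a⁻¹ * f (Fin.last d) = 1
    rw [← ha, inv_mul_cancel₀ ha0]
  · rw [hpoly] at hsep
    exact hsep.of_mul_right
  · have h1 : OrderOf v f (g + v.ord a) := by
      refine ⟨fun j => ?_, ?_⟩
      · rcases hg.1 j with h | h
        · left
          rw [hff, h, mul_zero]
        · by_cases h0 : f' j = 0
          · left
            rw [hff, h0, mul_zero]
          right
          rw [hff, v.ord_mul ha0 h0]
          omega
      · obtain ⟨j, hj0, hj⟩ := hg.2
        refine ⟨j, ?_, ?_⟩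
        · rw [hff]
          exact mul_ne_zero ha0 hj0
        · rw [hff, v.ord_mul ha0 hj0, hj]
          ring
    rcases hmeet i v hv _ h1 with h2 | h2
    · left
      rw [hform, v.ord_mul ha0 (hroot' _)] at h2
      omega
    · right
      rw [hform, v.ord_mul ha0 (hroot' _)] at h2
      omega

end

end Pool.Agent.L0h17.SD
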