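import Pool.Agent.L0h17.SD.Uni
import Pool.Agent.L0h17.DN.Down

/-!
Lifts of regular vector fields to finite extensions have poles of order at most `e - 1`.
-/

set_option autoImplicit false
set_option linter.overlappingInstances false
set_option linter.unusedSectionVars false

open FF Pool.Agent.W602.GT Pool.Agent.W603.LV Pool.Agent.W619.PQ Pool.Agent.Y172
open Pool.Agent.L0h17.DN

namespace Pool.Agent.L0h17.SD

section

variable {k K : Type} [Field k] [CharZero k] [Field K] [Algebra k K] {n : ℕ}

theorem det_pluri (w : Fin n → K) :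
    IsPluri 1 (fun D : Fin n → Derivation k K K => (Matrix.of fun i j => D i (w j)).det) := by
  intro A D
  change (Matrix.of fun i j => (∑ l, A i l • D l : Derivation k K K) (w j)).det = _
  rw [pow_one]
  change _ = A.det * (Matrix.of fun i j => D i (w j)).det
  rw [← Matrix.det_mul]
  congr 1
  ext i j
  rw [Matrix.mul_apply, Matrix.of_apply, DN.sum_smul]
  rfl

end

section

variable {k K L : Type} [Field k] [CharZero k] [Field K] [Field L] [Algebra k K] [Algebra k L]
  [Algebra K L] [IsScalarTower k K L] [FiniteDimensional K L] {n : ℕ}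
  {P : Place k K} {Q : Place k L} {e : ℕ}

/-- **Lifts of regular vector fields.** -/
theorem lift_reg [Algebra.EssFiniteType k K] [Algebra.EssFiniteType k L]
    (hn : Algebra.trdeg k K = n) (h : Over Q P e) (hP : Divisorial n P) {D : Derivation k K K}
    (hD : DerReg P D) {D' : Derivation k L L}
    (hD' : ∀ f, D' (algebraMap K L f) = algebraMap K L (D f)) {z : L} (hz : Q.Reg z) :
    Ge Q (1 - e) (D' z) := by
  classical
  obtain ⟨y, E, i0, hl⟩ := exists_loc hn hP
  have hnL : Algebra.trdeg k L = n := trdeg_up (K := K) hn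
  have hQ := divisorial_up h hP
  have hE : ∀ l, Ge Q (1 - e) (lft (K := L) hn (E l) z) := by
    intro l
    obtain ⟨w, hw⟩ : ∃ w : Fin n → L, w = fun j => if j = l then z else algebraMap K L (y j) :=
      ⟨_, rfl⟩
    have h1 := down_ge hnL h hQ hl (E' := fun i => lft (K := L) hn (E i))
      (fun i f => lft_apply hn (E i) f) (det_pluri w) (c := 0) (fun G hG => by
        have h2 : Ge Q 0 (Matrix.of fun i j => G i (w j)).det := by
          refine ge_det Q _ 0 (fun _ _ => 0) (fun a b => ?_) fun σ => ?_
          · change Ge Q 0 (G a (w b))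
            refine hG a _ ?_
            rw [hw]
            change Q.Reg (if b = l then z else algebraMap K L (y b))
            split_ifs
            · exact hz
            · exact h.reg.2 (hl.reg b)
          · simp
        rcases h2 with h2 | h2
        · exact Or.inl h2
        · right
          exact_mod_cast h2)
    have h2 : (Matrix.of fun i j => lft (K := L) hn (E i) (w j)).det =
        lft (K := L) hn (E l) z := by
      have h3 : (Matrix.of fun i j => lft (K := L) hn (E i) (w j)) =
          (1 : Matrix (Fin n) (Fin n) L).updateCol l (fun i => lft (K := L) hn (E i) z) := by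
        ext i j
        rw [Matrix.of_apply, Matrix.updateCol_apply, hw]
        by_cases hj : j = l
        · simp only [if_pos hj]
        · simp only [if_neg hj]
          rw [lft_apply, hl.dual, Matrix.one_apply]
          split_ifs <;> simp
      rw [h3, ← Matrix.cramer_apply, Matrix.cramer_one]
      rfl
    have h3 : lft (K := L) hn (E l) z = 0 ∨ (0 : ℝ) + ((1 : ℕ) : ℝ) - e * ((1 : ℕ) : ℝ) ≤
        (Q.ord (lft (K := L) hn (E l) z) : ℝ) := by
      rw [← h2]
      exact h1
    rcases h3 with h3 | h3
    · exact Or.inl h3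
    · right
      have h4 : (((1 - e : ℤ)) : ℝ) ≤ (Q.ord (lft (K := L) hn (E l) z) : ℝ) := by
        push_cast
        push_cast at h3
        linarith
      exact_mod_cast h4
  have hexp := Pool.Agent.W73.PG.PULL.expand y hl.bas E hl.dual D
  have h1 : D' = ∑ l, algebraMap K L (D (y l)) • lft (K := L) hn (E l) := by
    refine lift_unique hn hD' fun f => ?_
    rw [DN.sum_smul]
    have h2 : D f = ∑ l, D (y l) * E l f := by
      conv_lhs => rw [← hexp]
      rw [DN.sum_smul]
    rw [h2, map_sum]
    refine Finset.sum_congr rfl fun l _ => ?_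
    rw [map_mul, lft_apply]
  rw [h1, DN.sum_smul]
  refine Ge.sum _ _ fun l _ => ?_
  have h2 : Ge Q 0 (algebraMap K L (D (y l))) := h.reg.2 (hD _ (hl.reg l))
  have h3 := h2.mul (hE l)
  rwa [zero_add] at h3

end

section

variable {K : Type} [Field K] [Algebra ℂ K]

/-- values of forms on vector fields with poles -/
theorem ev_ge {w : Place ℂ K} {m : ℕ} {Φ : MvPolynomial K K} (hΦ : Φ.IsHomogeneous m) {c : K}
    (hreg : ∀ D : Derivation ℂ K K, DerReg w D → w.Reg (c * evD D Φ)) {e : ℕ} (he : 0 < e)
    {D : Derivation ℂ K K} (hD : ∀ z, w.Reg z → Ge w (1 - e) (D z)) :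
    Ge w (m * (1 - e)) (c * evD D Φ) := by
  obtain ⟨t, ht0, ht⟩ := w.surj
  have h1 : DerReg w (t ^ (e - 1) • D) := by
    intro f hf
    have h2 : Ge w (e - 1) (t ^ (e - 1)) := by
      right
      rw [w.ord_pow, ht]
      have : ((e - 1 : ℕ) : ℤ) = (e : ℤ) - 1 := by omega
      rw [this, mul_one]
    have h3 := h2.mul (hD f hf)
    have h4 : (e : ℤ) - 1 + (1 - e) = 0 := by ring
    rw [h4] at h3
    exact h3
  have h2 : Ge w 0 (c * evD (t ^ (e - 1) • D) Φ) := hreg _ h1
  rw [evD_smul D hΦ] at h2
  have h3 : Ge w (m * (1 - e)) ((t ^ (m * (e - 1)))⁻¹) := by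
    right
    rw [w.ord_inv, w.ord_pow, ht]
    have : ((m * (e - 1) : ℕ) : ℤ) = (m : ℤ) * (e - 1) := by
      push_cast
      rw [Nat.cast_sub he]
      push_cast
      ring
    rw [this]
    apply le_of_eq
    ring
  have h4 := h3.mul h2
  have h5 : (t ^ (m * (e - 1)))⁻¹ * (c * ((t ^ (e - 1)) ^ m * evD D Φ)) = c * evD D Φ := by
    have : t ^ (m * (e - 1)) ≠ 0 := pow_ne_zero _ ht0
    rw [← pow_mul, mul_comm (e - 1) m]
    field_simp
  rw [h5, add_zero] at h4
  exact h4

end

end Pool.Agent.L0h17.SD
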