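import Pool.Agent.L0h17.SD.Ext
import Mathlib.RingTheory.MvPolynomial.Homogeneous
import Mathlib.Data.Finsupp.Multiset

/-!
Symmetric differentials as homogeneous polynomials in the differentials.
-/

set_option autoImplicit false
set_option linter.overlappingInstances false
set_option linter.unusedSectionVars false

open FF Pool.Agent.W602.GT Pool.Agent.N155 MvPolynomial

namespace Pool.Agent.L0h17.SD

section

variable {K : Type}

theorem exists_enum {d : ℕ} (s : K →₀ ℕ) (hs : s.degree = d) :
    ∃ f : Fin d → K, ∀ {L : Type} [CommMonoid L] (g : K → L),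
      ∏ l, g (f l) = ∏ i ∈ s.support, g i ^ s i := by
  obtain ⟨t, ht⟩ : ∃ t : List K, t = (Finsupp.toMultiset s).toList := ⟨_, rfl⟩
  have hlen : t.length = d := by
    rw [ht, Multiset.length_toList, Finsupp.card_toMultiset, ← hs]
    rfl
  subst hlen
  refine ⟨fun l => t[l.1], fun {L} _ g => ?_⟩
  rw [Fin.prod_univ_fun_getElem, ht, Multiset.prod_map_toList, Finsupp.toMultiset_map,
    Finsupp.prod_toMultiset, Finsupp.prod_mapDomain_index (fun _ => pow_zero _)
      (fun _ _ _ => pow_add _ _ _)]
  rfl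

end

section

variable {K : Type} [Field K] [Algebra ℂ K]

/-- the value of a polynomial in the differentials -/
noncomputable def evD {L : Type} [Field L] [Algebra ℂ L] [Algebra K L] (D : Derivation ℂ K L) :
    MvPolynomial K K →+* L := eval₂Hom (algebraMap K L) fun f => D f

variable {L : Type} [Field L] [Algebra ℂ L] [Algebra K L] (D : Derivation ℂ K L)

theorem evD_C (c : K) : evD D (C c) = algebraMap K L c := eval₂Hom_C _ _ _

theorem evD_X (f : K) : evD D (X f) = D f := eval₂Hom_X' _ _ _

theorem evD_eq (Φ : MvPolynomial K K) : evD D Φ = ∑ s ∈ Φ.support,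
    algebraMap K L (Φ.coeff s) * ∏ i ∈ s.support, D i ^ s i := by
  unfold evD
  rw [coe_eval₂Hom, eval₂_eq]

theorem evD_smul {d : ℕ} {Φ : MvPolynomial K K} (h : Φ.IsHomogeneous d) (c : L) :
    evD (c • D) Φ = c ^ d * evD D Φ := by
  rw [evD_eq, evD_eq, Finset.mul_sum]
  refine Finset.sum_congr rfl fun s hs => ?_
  have h1 : s.degree = d := by
    by_contra hne
    exact (mem_support_iff.1 hs) (h.coeff_eq_zero hne)
  have h2 : ∏ i ∈ s.support, (c • D) i ^ s i = c ^ d * ∏ i ∈ s.support, D i ^ s i := by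
    have h3 : s.degree = ∑ i ∈ s.support, s i := rfl
    rw [← h1, h3, ← Finset.prod_pow_eq_pow_sum, ← Finset.prod_mul_distrib]
    refine Finset.prod_congr rfl fun i _ => ?_
    rw [← mul_pow]
    rfl
  rw [h2]
  ring

/-- **Homogeneous polynomials are symmetric differentials.** -/
theorem exists_sym {d : ℕ} {Φ : MvPolynomial K K} (h : Φ.IsHomogeneous d) :
    ∃ σ : SymD K, σ.d = d ∧ ∀ (L : Type) [Field L] [Algebra ℂ L] [Algebra K L]
      (D : Derivation ℂ K L), σ.app D = evD D Φ := by
  have hdeg : ∀ s : Φ.support, s.1.degree = d := by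
    intro s
    by_contra hne
    exact (mem_support_iff.1 s.2) (h.coeff_eq_zero hne)
  choose f hf using fun s : Φ.support => exists_enum s.1 (hdeg s)
  let e := Fintype.equivFin Φ.support
  refine ⟨⟨d, Fintype.card Φ.support, fun j => Φ.coeff (e.symm j).1, fun j => f (e.symm j)⟩, rfl,
    fun L _ _ _ D => ?_⟩
  rw [evD_eq, ← Finset.sum_coe_sort Φ.support
    (fun s => algebraMap K L (Φ.coeff s) * ∏ i ∈ s.support, D i ^ s i), ← e.symm.sum_comp]
  unfold SymD.app
  refine Finset.sum_congr rfl fun j _ => ?_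
  change _ * ∏ l, D (f (e.symm j) l) = _
  rw [hf (e.symm j) fun x => D x]

/-- the polynomial of a symmetric differential -/
noncomputable def SPol (σ : SymD K) : MvPolynomial K K := ∑ j, C (σ.h j) * ∏ l, X (σ.f j l)

theorem spol_hom (σ : SymD K) : (SPol σ).IsHomogeneous σ.d := by
  refine IsHomogeneous.sum _ _ _ fun j _ => ?_
  have h1 := (isHomogeneous_C (σ := K) (σ.h j)).mul (IsHomogeneous.prod Finset.univ
    (fun l => (X (σ.f j l) : MvPolynomial K K)) (fun _ => 1) fun l _ => isHomogeneous_X _ _)
  simpa using h1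

theorem evD_spol (σ : SymD K) : evD D (SPol σ) = σ.app D := by
  unfold SPol SymD.app
  rw [map_sum]
  refine Finset.sum_congr rfl fun j _ => ?_
  rw [map_mul, map_prod, evD_C]
  simp only [evD_X]

end

end Pool.Agent.L0h17.SD
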